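import Pool.Agent.Helper65.JE.Defs

/-!
Averages over lists of natural numbers (for the degree lowering step).
-/

open MeasureTheory Filter Topology Finset
open scoped BigOperators ComplexConjugate

namespace Pool.Agent.JE.DegLow

open Pool.Agent.JE

section avg
variable {E : Type*} [NormedAddCommGroup E] [NormedSpace ℝ E]

/-- average over `0 ≤ h < K` -/
noncomputable def A1 (K : ℕ) (a : ℕ → E) : E := (K : ℝ)⁻¹ • ∑ h ∈ range K, a h

/-- average over lists of length `s` with entries in `[0, K)` -/
noncomputable def AL : ℕ → ℕ → (List ℕ → E) → E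
  | 0, _, a => a []
  | s + 1, K, a => A1 K (fun h => AL s K (fun l => a (h :: l)))

/-- double averages -/
noncomputable def AL2 (s K : ℕ) (a : List ℕ → List ℕ → E) : E :=
  AL s K (fun l => AL s K (fun l' => a l l'))

lemma AL_zero (K : ℕ) (a : List ℕ → E) : AL 0 K a = a [] := rfl

lemma AL_succ (s K : ℕ) (a : List ℕ → E) :
    AL (s + 1) K a = A1 K (fun h => AL s K (fun l => a (h :: l))) := rfl

lemma A1_congr {K : ℕ} {a b : ℕ → E} (h : ∀ i, i < K → a i = b i) : A1 K a = A1 K b := by
  unfold A1
  congr 1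
  exact sum_congr rfl fun i hi => h i (mem_range.1 hi)

/-- lists of length `s` with entries below `K` -/
def InL (s K : ℕ) (l : List ℕ) : Prop := l.length = s ∧ ∀ i ∈ l, i < K

lemma InL.cons {s K h : ℕ} {l : List ℕ} (hh : h < K) (hl : InL s K l) : InL (s + 1) K (h :: l) := by
  refine ⟨by simp [hl.1], ?_⟩
  intro i hi
  rcases List.mem_cons.1 hi with rfl | hi
  · exact hh
  · exact hl.2 i hi

lemma InL.nil (K : ℕ) : InL 0 K [] := ⟨rfl, by simp⟩

lemma AL_congr {s K : ℕ} {a b : List ℕ → E} (h : ∀ l, InL s K l → a l = b l) :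
    AL s K a = AL s K b := by
  induction s generalizing a b with
  | zero => exact h [] (InL.nil K)
  | succ s ih =>
      rw [AL_succ, AL_succ]
      exact A1_congr fun i hi => ih fun l hl => h _ (hl.cons hi)

lemma A1_add (K : ℕ) (a b : ℕ → E) : A1 K (fun h => a h + b h) = A1 K a + A1 K b := by
  unfold A1
  rw [sum_add_distrib, smul_add]

lemma AL_add (s K : ℕ) (a b : List ℕ → E) :
    AL s K (fun l => a l + b l) = AL s K a + AL s K b := by
  induction s generalizing a b with
  | zero => rfl
  | succ s ih => simp only [AL_succ, ih, A1_add]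

lemma A1_map {F : Type*} [NormedAddCommGroup F] [NormedSpace ℝ F] (φ : E →ₗ[ℝ] F) (K : ℕ)
    (a : ℕ → E) : φ (A1 K a) = A1 K (fun h => φ (a h)) := by
  unfold A1
  rw [map_smul, map_sum]

lemma AL_map {F : Type*} [NormedAddCommGroup F] [NormedSpace ℝ F] (φ : E →ₗ[ℝ] F) (s K : ℕ)
    (a : List ℕ → E) : φ (AL s K a) = AL s K (fun l => φ (a l)) := by
  induction s generalizing a with
  | zero => rfl
  | succ s ih => simp only [AL_succ, A1_map, ih]

lemma A1_comm (K M : ℕ) (a : ℕ → ℕ → E) :
    A1 K (fun h => A1 M (fun m => a h m)) = A1 M (fun m => A1 K (fun h => a h m)) := by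
  unfold A1
  simp only [smul_sum]
  rw [sum_comm]
  refine sum_congr rfl fun i _ => sum_congr rfl fun j _ => ?_
  rw [smul_comm]

lemma A1_AL_comm (K s M : ℕ) (a : ℕ → List ℕ → E) :
    A1 K (fun h => AL s M (a h)) = AL s M (fun l => A1 K (fun h => a h l)) := by
  induction s generalizing a with
  | zero => rfl
  | succ s ih =>
      simp only [AL_succ]
      rw [A1_comm]
      simp only [ih]

lemma AL2_succ (s K : ℕ) (a : List ℕ → List ℕ → E) :
    AL2 (s + 1) K a = A1 K (fun h => A1 K (fun h' => AL2 s K (fun l l' => a (h :: l) (h' :: l')))) := by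
  unfold AL2
  simp only [AL_succ]
  congr 1
  funext h
  rw [A1_AL_comm]

lemma norm_A1_le (K : ℕ) (a : ℕ → E) : ‖A1 K a‖ ≤ A1 K (fun h => ‖a h‖) := by
  unfold A1
  rw [norm_smul, norm_inv, Real.norm_natCast, smul_eq_mul]
  exact mul_le_mul_of_nonneg_left (norm_sum_le _ _) (by positivity)

lemma A1_mono {K : ℕ} {a b : ℕ → ℝ} (h : ∀ i, i < K → a i ≤ b i) : A1 K a ≤ A1 K b := by
  unfold A1
  simp only [smul_eq_mul]
  exact mul_le_mul_of_nonneg_left (sum_le_sum fun i hi => h i (mem_range.1 hi)) (by positivity)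

lemma AL_mono {s K : ℕ} {a b : List ℕ → ℝ} (h : ∀ l, InL s K l → a l ≤ b l) :
    AL s K a ≤ AL s K b := by
  induction s generalizing a b with
  | zero => exact h [] (InL.nil K)
  | succ s ih =>
      rw [AL_succ, AL_succ]
      exact A1_mono fun i hi => ih fun l hl => h _ (hl.cons hi)

lemma norm_AL_le (s K : ℕ) (a : List ℕ → E) : ‖AL s K a‖ ≤ AL s K (fun l => ‖a l‖) := by
  induction s generalizing a with
  | zero => exact le_rfl
  | succ s ih =>
      rw [AL_succ, AL_succ]
      exact (norm_A1_le _ _).trans (A1_mono fun i _ => ih _)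

lemma A1_const {K : ℕ} (hK : 1 ≤ K) (c : E) : A1 K (fun _ => c) = c := by
  unfold A1
  have : (K : ℝ) ≠ 0 := by positivity
  rw [sum_const, card_range, ← Nat.cast_smul_eq_nsmul ℝ, smul_smul, inv_mul_cancel₀ this, one_smul]

lemma AL_const (s : ℕ) {K : ℕ} (hK : 1 ≤ K) (c : E) : AL s K (fun _ => c) = c := by
  induction s with
  | zero => rfl
  | succ s ih => rw [AL_succ, ih, A1_const hK]

lemma A1_nonneg {K : ℕ} {a : ℕ → ℝ} (h : ∀ i, 0 ≤ a i) : 0 ≤ A1 K a := by
  unfold A1
  simp only [smul_eq_mul]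
  exact mul_nonneg (by positivity) (sum_nonneg fun i _ => h i)

lemma AL_nonneg {s K : ℕ} {a : List ℕ → ℝ} (h : ∀ l, 0 ≤ a l) : 0 ≤ AL s K a := by
  induction s generalizing a with
  | zero => exact h []
  | succ s ih =>
      rw [AL_succ]
      exact A1_nonneg fun i => ih fun l => h _

lemma A1_pow_le {K : ℕ} (hK : 1 ≤ K) (a : ℕ → ℝ) (ha : ∀ i, 0 ≤ a i) (p : ℕ) :
    (A1 K a) ^ p ≤ A1 K (fun i => a i ^ p) := by
  have h := Real.pow_arith_mean_le_arith_mean_pow (range K) (fun _ => (K : ℝ)⁻¹) a
    (fun i _ => by positivity) (by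
      rw [sum_const, card_range, nsmul_eq_mul]
      exact mul_inv_cancel₀ (by positivity)) (fun i _ => ha i) p
  unfold A1
  simp only [smul_eq_mul, mul_sum]
  exact h

lemma AL_pow_le (s : ℕ) {K : ℕ} (hK : 1 ≤ K) (a : List ℕ → ℝ) (ha : ∀ l, 0 ≤ a l) (p : ℕ) :
    (AL s K a) ^ p ≤ AL s K (fun l => a l ^ p) := by
  induction s generalizing a with
  | zero => exact le_rfl
  | succ s ih =>
      rw [AL_succ, AL_succ]
      refine (A1_pow_le hK _ (fun i => AL_nonneg fun l => ha _) p).trans ?_
      exact A1_mono fun i _ => ih _ fun l => ha _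

lemma av_eq (s K : ℕ) (G : List ℕ → ℝ) : av s K G = AL s K G := by
  induction s generalizing G with
  | zero => rfl
  | succ s ih =>
      rw [av, AL_succ]
      simp only [ih]
      unfold A1
      rw [smul_eq_mul, div_eq_inv_mul]

lemma A1_integral {X : Type*} [MeasurableSpace X] {μ : Measure X} (K : ℕ) (f : ℕ → X → E)
    (hf : ∀ h, Integrable (f h) μ) :
    ∫ x, A1 K (fun h => f h x) ∂μ = A1 K (fun h => ∫ x, f h x ∂μ) := by
  unfold A1
  rw [integral_smul, integral_finsetSum _ fun i _ => hf i]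

/-- if the average of `a` is at least `c`, some term is at least `c` -/
lemma exists_of_A1_le {K : ℕ} (hK : 1 ≤ K) {a : ℕ → ℝ} {c : ℝ} (h : c ≤ A1 K a) :
    ∃ i < K, c ≤ a i := by
  by_contra hcon
  push Not at hcon
  have h1 : A1 K a < A1 K (fun _ => c) := by
    unfold A1
    simp only [smul_eq_mul]
    refine mul_lt_mul_of_pos_left ?_ (by positivity)
    exact sum_lt_sum_of_nonempty (by simpa using (show K ≠ 0 by omega))
      fun i hi => hcon i (mem_range.1 hi)
  rw [A1_const hK] at h1
  exact absurd h (not_le.2 h1)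

lemma exists_of_AL2_le (s : ℕ) {K : ℕ} (hK : 1 ≤ K) {a : List ℕ → List ℕ → ℝ} {c : ℝ}
    (h : c ≤ AL2 s K a) : ∃ l', InL s K l' ∧ c ≤ AL s K (fun l => a l l') := by
  induction s generalizing a with
  | zero => exact ⟨[], InL.nil K, h⟩
  | succ s ih =>
      rw [AL2_succ, A1_comm] at h
      obtain ⟨i, hi, h2⟩ := exists_of_A1_le hK h
      have h3 : A1 K (fun h => AL2 s K (fun l l' => a (h :: l) (i :: l')))
          = AL2 s K (fun l l' => A1 K (fun h => a (h :: l) (i :: l'))) := by
        unfold AL2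
        rw [A1_AL_comm]
        simp only [A1_AL_comm]
      rw [h3] at h2
      obtain ⟨l', hl', h4⟩ := ih h2
      refine ⟨i :: l', hl'.cons hi, ?_⟩
      rw [AL_succ, A1_AL_comm]
      exact h4

/-- the distribution of the absolute value of the difference -/
lemma A1_diff_le {K : ℕ} (φ : ℕ → ℝ) (hφ : ∀ i, 0 ≤ φ i) :
    A1 K (fun h => A1 K (fun h' => φ ((h : ℤ) - h').natAbs)) ≤ 2 * A1 K φ := by
  rcases Nat.eq_zero_or_pos K with rfl | hK
  · simp [A1]
  have key : ∀ h < K, ∑ h' ∈ range K, φ ((h : ℤ) - h').natAbs ≤ 2 * ∑ i ∈ range K, φ i := by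
    intro h hh
    have h1 : ∑ h' ∈ range K, φ ((h : ℤ) - h').natAbs
        = ∑ h' ∈ (range K).filter (fun i => i ≤ h), φ ((h : ℤ) - h').natAbs
          + ∑ h' ∈ (range K).filter (fun i => ¬ i ≤ h), φ ((h : ℤ) - h').natAbs :=
      (sum_filter_add_sum_filter_not _ _ _).symm
    rw [h1, two_mul]
    refine add_le_add ?_ ?_
    · have h2 : ∑ h' ∈ (range K).filter (fun i => i ≤ h), φ ((h : ℤ) - h').natAbs
          = ∑ i ∈ ((range K).filter (fun i => i ≤ h)).image (fun h' => h - h'), φ i := by
        rw [sum_image]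
        · refine sum_congr rfl fun i hi => ?_
          rw [mem_filter] at hi
          congr 1
          omega
        · intro i hi j hj hij
          simp only [coe_filter, Set.mem_ofPred_eq] at hi hj
          simp only at hij
          omega
      rw [h2]
      refine sum_le_sum_of_subset_of_nonneg ?_ fun i _ _ => hφ i
      intro i hi
      rw [mem_image] at hi
      obtain ⟨j, hj, rfl⟩ := hi
      rw [mem_filter, mem_range] at hj
      rw [mem_range]
      omega
    · have h2 : ∑ h' ∈ (range K).filter (fun i => ¬ i ≤ h), φ ((h : ℤ) - h').natAbs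
          = ∑ i ∈ ((range K).filter (fun i => ¬ i ≤ h)).image (fun h' => h' - h), φ i := by
        rw [sum_image]
        · refine sum_congr rfl fun i hi => ?_
          rw [mem_filter] at hi
          congr 1
          omega
        · intro i hi j hj hij
          simp only [coe_filter, Set.mem_ofPred_eq] at hi hj
          simp only at hij
          omega
      rw [h2]
      refine sum_le_sum_of_subset_of_nonneg ?_ fun i _ _ => hφ i
      intro i hi
      rw [mem_image] at hi
      obtain ⟨j, hj, rfl⟩ := hi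
      rw [mem_filter, mem_range] at hj
      rw [mem_range]
      omega
  calc A1 K (fun h => A1 K (fun h' => φ ((h : ℤ) - h').natAbs))
      ≤ A1 K (fun _ => 2 * A1 K φ) := by
        refine A1_mono fun h hh => ?_
        unfold A1
        simp only [smul_eq_mul]
        have := key h hh
        calc (K : ℝ)⁻¹ * ∑ h' ∈ range K, φ ((h : ℤ) - h').natAbs
            ≤ (K : ℝ)⁻¹ * (2 * ∑ i ∈ range K, φ i) :=
              mul_le_mul_of_nonneg_left this (by positivity)
          _ = 2 * ((K : ℝ)⁻¹ * ∑ i ∈ range K, φ i) := by ring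
    _ = 2 * A1 K φ := A1_const hK _

lemma AL2_diff_le (s : ℕ) {K : ℕ} (g : List ℕ → ℝ) (hg : ∀ l, 0 ≤ g l) :
    AL2 s K (fun l l' => g (List.zipWith (fun a b : ℕ => ((a : ℤ) - b).natAbs) l l'))
      ≤ 2 ^ s * AL s K g := by
  induction s generalizing g with
  | zero => simp [AL2, AL]
  | succ s ih =>
      rw [AL2_succ]
      simp only [List.zipWith_cons_cons]
      calc A1 K (fun h => A1 K (fun h' => AL2 s K (fun l l' =>
            g (((h : ℤ) - h').natAbs ::
              List.zipWith (fun a b : ℕ => ((a : ℤ) - b).natAbs) l l'))))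
          ≤ A1 K (fun h => A1 K (fun h' => 2 ^ s * AL s K (fun l =>
              g (((h : ℤ) - h').natAbs :: l)))) :=
            A1_mono fun h _ => A1_mono fun h' _ =>
              ih (fun l => g (((h : ℤ) - h').natAbs :: l)) fun l => hg _
        _ ≤ 2 * A1 K (fun i => 2 ^ s * AL s K (fun l => g (i :: l))) :=
            A1_diff_le (fun i => 2 ^ s * AL s K (fun l => g (i :: l)))
              fun i => mul_nonneg (by positivity) (AL_nonneg fun l => hg _)
        _ = 2 ^ (s + 1) * AL (s + 1) K g := by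
            rw [AL_succ]
            unfold A1
            simp only [smul_eq_mul, ← mul_sum]
            ring

end avg

end Pool.Agent.JE.DegLow
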