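import Pool.Agent.Helper16.JE.Avg

/-!
Cube products, and the Cauchy-Schwarz step (for the degree lowering step).
-/

open MeasureTheory Filter Topology Finset
open scoped BigOperators ComplexConjugate

namespace Pool.Agent.JE.DegLow

open Pool.Agent.JE

variable {X : Type} [MeasurableSpace X] {μ : Measure X}

/-! ### bounded functions -/

lemma bdd_one : Bdd (fun _ : X => (1 : ℂ)) := ⟨measurable_const, fun _ => by simp⟩

lemma bdd_zero : Bdd (fun _ : X => (0 : ℂ)) := ⟨measurable_const, fun _ => by simp⟩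

lemma _root_.Pool.Agent.JE.Bdd.qmul {f g : X → ℂ} (hf : Bdd f) (hg : Bdd g) : Bdd (fun x => f x * g x) :=
  ⟨hf.meas.mul hg.meas, fun x => by
    rw [norm_mul]
    exact mul_le_one₀ (hf.le x) (norm_nonneg _) (hg.le x)⟩

lemma _root_.Pool.Agent.JE.Bdd.qconj {f : X → ℂ} (hf : Bdd f) : Bdd (fun x => conj (f x)) :=
  ⟨Complex.continuous_conj.measurable.comp hf.meas, fun x => by
    rw [Complex.norm_conj]
    exact hf.le x⟩

lemma _root_.Pool.Agent.JE.Bdd.qshift {f : X → ℂ} (hf : Bdd f) (A : Act X μ) (h : ℤ) : Bdd (fun x => f (A.S h x)) :=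
  ⟨hf.meas.comp (A.mp h).measurable, fun _ => hf.le _⟩

lemma _root_.Pool.Agent.JE.Bdd.qDl {f : X → ℂ} (hf : Bdd f) (A : Act X μ) (h : ℤ) : Bdd (Dl A h f) :=
  (hf.qshift A h).qmul hf.qconj

lemma _root_.Pool.Agent.JE.Bdd.qcub {f : X → ℂ} (hf : Bdd f) (A : Act X μ) (l : List ℤ) : Bdd (cub A l f) := by
  induction l generalizing f with
  | nil => exact hf
  | cons h l ih => exact ih (hf.qDl A h)

lemma _root_.Pool.Agent.JE.Bdd.qint [IsProbabilityMeasure μ] {f : X → ℂ} (hf : Bdd f) : Integrable f μ :=
  Integrable.of_bound hf.meas.aestronglyMeasurable 1 (Eventually.of_forall hf.le)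

lemma _root_.Pool.Agent.JE.Bdd.qnorm_int_le [IsProbabilityMeasure μ] {f : X → ℂ} (hf : Bdd f) : ‖∫ x, f x ∂μ‖ ≤ 1 := by
  have := norm_integral_le_of_norm_le_const (μ := μ) (f := f) (C := 1)
    (Eventually.of_forall hf.le)
  simpa using this

/-! ### the action -/

lemma S_S (A : Act X μ) (a b : ℤ) (x : X) : A.S a (A.S b x) = A.S (a + b) x := (A.add a b x).symm

lemma S_comm (A : Act X μ) (a b : ℤ) (x : X) : A.S a (A.S b x) = A.S b (A.S a x) := by
  rw [S_S, S_S, add_comm]

/-- the measurable equivalence `S a` -/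
def meq (A : Act X μ) (a : ℤ) : X ≃ᵐ X where
  toFun := A.S a
  invFun := A.S (-a)
  left_inv x := by rw [S_S]; simp [A.zero]
  right_inv x := by rw [S_S]; simp [A.zero]
  measurable_toFun := (A.mp a).measurable
  measurable_invFun := (A.mp (-a)).measurable

lemma int_shift (A : Act X μ) (a : ℤ) (f : X → ℂ) : ∫ x, f (A.S a x) ∂μ = ∫ x, f x ∂μ :=
  (A.mp a).integral_comp (meq A a).measurableEmbedding f

lemma ae_shift (A : Act X μ) (a : ℤ) {p : X → Prop} (h : ∀ᵐ x ∂μ, p x) : ∀ᵐ x ∂μ, p (A.S a x) :=
  (A.mp a).quasiMeasurePreserving.ae h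

/-! ### cubes -/

lemma Dl_mul (A : Act X μ) (h : ℤ) (f g : X → ℂ) :
    Dl A h (fun x => f x * g x) = fun x => Dl A h f x * Dl A h g x := by
  funext x
  simp only [Dl, map_mul]
  ring

lemma Dl_conj (A : Act X μ) (h : ℤ) (f : X → ℂ) :
    Dl A h (fun x => conj (f x)) = fun x => conj (Dl A h f x) := by
  funext x
  simp only [Dl, map_mul]

lemma Dl_shift (A : Act X μ) (h a : ℤ) (f : X → ℂ) :
    Dl A h (fun x => f (A.S a x)) = fun x => Dl A h f (A.S a x) := by
  funext x
  simp only [Dl]
  rw [S_comm]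

lemma cub_mul (A : Act X μ) (l : List ℤ) (f g : X → ℂ) :
    cub A l (fun x => f x * g x) = fun x => cub A l f x * cub A l g x := by
  induction l generalizing f g with
  | nil => rfl
  | cons h l ih => simp only [cub, Dl_mul, ih]

lemma cub_conj (A : Act X μ) (l : List ℤ) (f : X → ℂ) :
    cub A l (fun x => conj (f x)) = fun x => conj (cub A l f x) := by
  induction l generalizing f with
  | nil => rfl
  | cons h l ih => simp only [cub, Dl_conj, ih]

lemma cub_shift (A : Act X μ) (l : List ℤ) (a : ℤ) (f : X → ℂ) :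
    cub A l (fun x => f (A.S a x)) = fun x => cub A l f (A.S a x) := by
  induction l generalizing f with
  | nil => rfl
  | cons h l ih => simp only [cub, Dl_shift, ih]

lemma cub_cons (A : Act X μ) (h : ℤ) (l : List ℤ) (f : X → ℂ) :
    cub A (h :: l) f = fun x => cub A l f (A.S h x) * conj (cub A l f x) := by
  have h1 : Dl A h f = fun x => f (A.S h x) * conj (f x) := rfl
  rw [cub, h1, cub_mul A l (fun x => f (A.S h x)) (fun x => conj (f x)), cub_shift, cub_conj]

lemma cub_append_single (A : Act X μ) (h : ℤ) (l : List ℤ) (f : X → ℂ) :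
    cub A (l ++ [h]) f = Dl A h (cub A l f) := by
  induction l generalizing f with
  | nil => rfl
  | cons a l ih => rw [List.cons_append, cub, cub, ih]

lemma cub_tens [SFinite μ] (A : Act X μ) (l : List ℤ) (f : X → ℂ) :
    cub A.prod l (tens f) = tens (cub A l f) := by
  induction l generalizing f with
  | nil => rfl
  | cons h l ih =>
      rw [cub, cub]
      have : Dl A.prod h (tens f) = tens (Dl A h f) := by
        funext z
        simp only [Dl, tens, Act.prod, map_mul]
        ring
      rw [this, ih]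

/-! ### Cauchy-Schwarz -/

lemma sq_int_le [IsProbabilityMeasure μ] {w : X → ℝ} (hw : Measurable w) {C : ℝ}
    (hC : ∀ x, |w x| ≤ C) : (∫ x, w x ∂μ) ^ 2 ≤ ∫ x, w x ^ 2 ∂μ := by
  have hi : Integrable w μ := Integrable.of_bound hw.aestronglyMeasurable C
    (Eventually.of_forall fun x => by rw [Real.norm_eq_abs]; exact hC x)
  have hi2 : Integrable (fun x => w x ^ 2) μ :=
    Integrable.of_bound (hw.pow_const 2).aestronglyMeasurable (C ^ 2)
      (Eventually.of_forall fun x => by
        rw [Real.norm_eq_abs, abs_pow]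
        exact pow_le_pow_left₀ (abs_nonneg _) (hC x) 2)
  set m := ∫ x, w x ∂μ with hm
  have h0 : 0 ≤ ∫ x, (w x - m) ^ 2 ∂μ := integral_nonneg fun x => sq_nonneg _
  have h1 : ∫ x, (w x - m) ^ 2 ∂μ = ∫ x, w x ^ 2 ∂μ - m ^ 2 := by
    have h2 : ∀ x, (w x - m) ^ 2 = (w x ^ 2 - 2 * m * w x) + m ^ 2 := fun x => by ring
    simp only [h2]
    have h3 : Integrable (fun x => 2 * m * w x) μ := hi.const_mul _
    have h4 : Integrable (fun x => w x ^ 2 - 2 * m * w x) μ := hi2.sub h3
    rw [integral_add h4 (integrable_const _),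
      integral_sub hi2 h3, integral_const_mul, ← hm, integral_const]
    simp
    ring
  linarith

/-- the Cauchy-Schwarz step with a varying shift -/
theorem cs_step [IsProbabilityMeasure μ] (A : Act X μ) (s : ℕ) {K : ℕ} (hK : 1 ≤ K) (σ : ℕ → ℤ)
    (V : List ℕ → X → ℂ) (W : ℕ → List ℕ → X → ℂ)
    (hV : ∀ l, l.length = s → Bdd (V l)) (hW : ∀ h l, l.length = s → Bdd (W h l)) :
    ‖A1 K (fun h => AL s K (fun l => ∫ x, V l (A.S (σ h) x) * W h l x ∂μ))‖ ^ 2 ≤
      (A1 K (fun h => A1 K (fun h' => AL s K (fun l =>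
        ∫ x, W h l (A.S (σ h' - σ h) x) * conj (W h' l x) ∂μ)))).re := by
  -- swap the averages
  rw [A1_AL_comm]
  have hswap : A1 K (fun h => A1 K (fun h' => AL s K (fun l =>
        ∫ x, W h l (A.S (σ h' - σ h) x) * conj (W h' l x) ∂μ)))
      = AL s K (fun l => A1 K (fun h => A1 K (fun h' =>
        ∫ x, W h l (A.S (σ h' - σ h) x) * conj (W h' l x) ∂μ))) := by
    simp only [A1_AL_comm]
  rw [hswap]
  have hre : (AL s K (fun l => A1 K (fun h => A1 K (fun h' =>
        ∫ x, W h l (A.S (σ h' - σ h) x) * conj (W h' l x) ∂μ)))).re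
      = AL s K (fun l => (A1 K (fun h => A1 K (fun h' =>
        ∫ x, W h l (A.S (σ h' - σ h) x) * conj (W h' l x) ∂μ))).re) :=
    AL_map Complex.reLm s K _
  rw [hre]
  calc ‖AL s K (fun l => A1 K (fun h => ∫ x, V l (A.S (σ h) x) * W h l x ∂μ))‖ ^ 2
      ≤ (AL s K (fun l => ‖A1 K (fun h => ∫ x, V l (A.S (σ h) x) * W h l x ∂μ)‖)) ^ 2 :=
        pow_le_pow_left₀ (norm_nonneg _) (norm_AL_le _ _ _) 2
    _ ≤ AL s K (fun l => ‖A1 K (fun h => ∫ x, V l (A.S (σ h) x) * W h l x ∂μ)‖ ^ 2) :=
        AL_pow_le s hK _ (fun l => norm_nonneg _) 2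
    _ ≤ _ := by
        refine AL_mono fun l hl => ?_
        have hVl := hV l hl.1
        have hWl := fun h => hW h l hl.1
        set w : X → ℂ := fun x => A1 K (fun h => W h l (A.S (-σ h) x)) with hw
        have hwm : Measurable w := by
          have : w = fun x => (K : ℝ)⁻¹ • ∑ h ∈ range K, W h l (A.S (-σ h) x) := rfl
          rw [this]
          have hm : Measurable (fun x => ∑ h ∈ range K, W h l (A.S (-σ h) x)) :=
            Finset.measurable_sum _ fun h _ => ((hWl h).qshift A (-σ h)).meas
          exact hm.const_smul (K : ℝ)⁻¹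
        have hwb : ∀ x, ‖w x‖ ≤ 1 := by
          intro x
          refine (norm_A1_le _ _).trans ?_
          refine (A1_mono fun h _ => (hWl h).le _).trans ?_
          rw [A1_const hK]
        have hw1 : Bdd w := ⟨hwm, hwb⟩
        have e1 : A1 K (fun h => ∫ x, V l (A.S (σ h) x) * W h l x ∂μ) = ∫ x, V l x * w x ∂μ := by
          have e2 : ∀ x, V l x * w x = A1 K (fun h => V l x * W h l (A.S (-σ h) x)) := by
            intro x
            simp only [hw, A1, mul_sum, smul_sum, mul_smul_comm]
          simp only [e2]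
          rw [A1_integral K (fun h x => V l x * W h l (A.S (-σ h) x))
            fun h => (hVl.qmul ((hWl h).qshift A (-σ h))).qint]
          refine A1_congr fun h _ => ?_
          rw [← int_shift A (σ h) (fun x => V l x * W h l (A.S (-σ h) x))]
          refine integral_congr_ae (Eventually.of_forall fun x => ?_)
          simp only
          rw [S_S, neg_add_cancel, A.zero]
        have e3 : (A1 K (fun h => A1 K (fun h' =>
            ∫ x, W h l (A.S (σ h' - σ h) x) * conj (W h' l x) ∂μ))).re
            = ∫ x, ‖w x‖ ^ 2 ∂μ := by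
          have e4 : ∀ x, ((‖w x‖ ^ 2 : ℝ) : ℂ) = A1 K (fun h => A1 K (fun h' =>
              W h l (A.S (-σ h) x) * conj (W h' l (A.S (-σ h') x)))) := by
            intro x
            have e5 : ((‖w x‖ ^ 2 : ℝ) : ℂ) = w x * conj (w x) := by
              rw [Complex.mul_conj, Complex.normSq_eq_norm_sq]
            rw [e5]
            have e6 : conj (w x) = A1 K (fun h' => conj (W h' l (A.S (-σ h') x))) := by
              simp only [hw, A1]
              rw [Complex.real_smul, map_mul, map_sum, Complex.conj_ofReal, Complex.real_smul]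
            rw [e6]
            simp only [hw, A1, sum_mul, mul_sum, smul_sum, smul_mul_assoc, mul_smul_comm]
            rw [sum_comm]
          have e7 : ((∫ x, ‖w x‖ ^ 2 ∂μ : ℝ) : ℂ) = A1 K (fun h => A1 K (fun h' =>
              ∫ x, W h l (A.S (σ h' - σ h) x) * conj (W h' l x) ∂μ)) := by
            rw [← integral_complex_ofReal]
            simp only [e4]
            have hb : ∀ h h', Bdd (fun x => W h l (A.S (-σ h) x) * conj (W h' l (A.S (-σ h') x))) :=
              fun h h' => ((hWl h).qshift A _).qmul ((hWl h').qshift A _).qconj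
            have hb2 : ∀ h, Integrable (fun x => A1 K (fun h' =>
                W h l (A.S (-σ h) x) * conj (W h' l (A.S (-σ h') x)))) μ := by
              intro h
              unfold A1
              exact (integrable_finsetSum _ fun h' _ => (hb h h').qint).smul _
            rw [A1_integral K (fun h x => A1 K (fun h' =>
                W h l (A.S (-σ h) x) * conj (W h' l (A.S (-σ h') x)))) hb2]
            refine A1_congr fun h _ => ?_
            rw [A1_integral K (fun h' x => W h l (A.S (-σ h) x) * conj (W h' l (A.S (-σ h') x)))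
              fun h' => (hb h h').qint]
            refine A1_congr fun h' _ => ?_
            rw [← int_shift A (σ h') (fun x => W h l (A.S (-σ h) x) * conj (W h' l (A.S (-σ h') x)))]
            refine integral_congr_ae (Eventually.of_forall fun x => ?_)
            simp only
            rw [S_S, S_S, neg_add_cancel, A.zero, neg_add_eq_sub]
          rw [← e7, Complex.ofReal_re]
        rw [e1, e3]
        have e8 : ‖∫ x, V l x * w x ∂μ‖ ≤ ∫ x, ‖w x‖ ∂μ := by
          refine (norm_integral_le_integral_norm _).trans ?_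
          refine integral_mono_of_nonneg (Eventually.of_forall fun x => norm_nonneg _)
            hw1.qint.norm (Eventually.of_forall fun x => ?_)
          simp only [norm_mul]
          calc ‖V l x‖ * ‖w x‖ ≤ 1 * ‖w x‖ :=
                mul_le_mul_of_nonneg_right (hVl.le x) (norm_nonneg _)
            _ = ‖w x‖ := one_mul _
        calc ‖∫ x, V l x * w x ∂μ‖ ^ 2 ≤ (∫ x, ‖w x‖ ∂μ) ^ 2 :=
              pow_le_pow_left₀ (norm_nonneg _) e8 2
          _ ≤ ∫ x, ‖w x‖ ^ 2 ∂μ := sq_int_le hwm.norm (C := 1) fun x => by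
              rw [abs_of_nonneg (norm_nonneg _)]
              exact hwb x

end Pool.Agent.JE.DegLow
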