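import Pool.Agent.Helper16.JE.Eig

/-!
Degree lowering (T10).
-/

open MeasureTheory Filter Topology Finset
open scoped BigOperators ComplexConjugate

namespace Pool.Agent.JE.DegLow

open Pool.Agent.JE

variable {X : Type} [MeasurableSpace X] {μ : Measure X}

/-! ### correlations -/

lemma Cor_natAbs (A : Act X μ) (f : X → ℂ) (l : List ℤ) :
    Cor A (l.map (fun h => (h.natAbs : ℤ))) f = Cor A l f := by
  induction l generalizing f with
  | nil => rfl
  | cons h l ih =>
      have h0 : ∀ a : ℤ, Cor A (a :: l) f = Cor A l (Dl A a f) := fun a => rfl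
      have h1 : Cor A ((h :: l).map (fun h => (h.natAbs : ℤ))) f
          = Cor A (l.map (fun h => (h.natAbs : ℤ))) (Dl A (h.natAbs : ℤ) f) := rfl
      rw [h1, ih, h0]
      rcases Int.natAbs_eq h with h2 | h2
      · rw [← h2]
      · set n : ℤ := (h.natAbs : ℤ) with hn
        have h3 : Dl A h f = fun x => conj (Dl A n f (A.S (-n) x)) := by
          funext x
          rw [h2]
          simp only [Dl, map_mul, Complex.conj_conj]
          rw [S_S, add_neg_cancel, A.zero]
          ring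
        rw [h3]
        unfold Cor
        rw [cub_conj A l (fun x => Dl A n f (A.S (-n) x)), cub_shift A l (-n) (Dl A n f),
          integral_conj, Complex.norm_conj, int_shift A (-n) (fun x => cub A l (Dl A n f) x)]

lemma Cor_tens [IsProbabilityMeasure μ] (A : Act X μ) (f : X → ℂ) (l : List ℤ) :
    Cor A.prod l (tens f) = (Cor A l f) ^ 2 := by
  unfold Cor
  rw [cub_tens]
  have h1 : ∫ z, tens (cub A l f) z ∂(μ.prod μ)
      = (∫ x, cub A l f x ∂μ) * ∫ x, conj (cub A l f x) ∂μ :=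
    integral_prod_mul (cub A l f) (fun x => conj (cub A l f x))
  rw [h1, norm_mul, integral_conj, Complex.norm_conj, pow_two]

lemma int_tens [IsProbabilityMeasure μ] (g : X → ℂ) :
    ∫ z, tens g z ∂(μ.prod μ) = ((‖∫ x, g x ∂μ‖ ^ 2 : ℝ) : ℂ) := by
  have h1 : ∫ z, tens g z ∂(μ.prod μ) = (∫ x, g x ∂μ) * ∫ x, conj (g x) ∂μ :=
    integral_prod_mul g (fun x => conj (g x))
  rw [h1, integral_conj, Complex.mul_conj, Complex.normSq_eq_norm_sq]

/-! ### limits of averages -/

lemma tendsto_A1 {E : Type*} [NormedAddCommGroup E] [NormedSpace ℝ E] {U : Filter ℕ} {K : ℕ}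
    {a : ℕ → ℕ → E} {b : ℕ → E} (h : ∀ i < K, Tendsto (fun N => a N i) U (𝓝 (b i))) :
    Tendsto (fun N => A1 K (a N)) U (𝓝 (A1 K b)) := by
  unfold A1
  exact (tendsto_finsetSum _ fun i hi => h i (mem_range.1 hi)).const_smul _

lemma tendsto_AL {E : Type*} [NormedAddCommGroup E] [NormedSpace ℝ E] {U : Filter ℕ} {s K : ℕ}
    {a : ℕ → List ℕ → E} {b : List ℕ → E}
    (h : ∀ l, InL s K l → Tendsto (fun N => a N l) U (𝓝 (b l))) :
    Tendsto (fun N => AL s K (a N)) U (𝓝 (AL s K b)) := by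
  induction s generalizing a b with
  | zero => exact h [] (InL.nil K)
  | succ s ih =>
      simp only [AL_succ]
      exact tendsto_A1 fun i hi => ih fun l hl => h _ (hl.cons hi)

lemma eventually_InL {U : Filter ℕ} {s K : ℕ} {p : ℕ → List ℕ → Prop}
    (h : ∀ l, InL s K l → ∀ᶠ N in U, p N l) : ∀ᶠ N in U, ∀ l, InL s K l → p N l := by
  induction s generalizing p with
  | zero =>
      filter_upwards [h [] (InL.nil K)] with N hN l hl
      have : l = [] := List.length_eq_zero_iff.1 hl.1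
      rw [this]
      exact hN
  | succ s ih =>
      have h1 : ∀ i ∈ range K, ∀ᶠ N in U, ∀ l, InL s K l → p N (i :: l) := fun i hi =>
        ih fun l hl => h _ (hl.cons (mem_range.1 hi))
      have h2 := (Filter.eventually_all_finset (range K)).2 h1
      filter_upwards [h2] with N hN l hl
      obtain ⟨hl1, hl2⟩ := hl
      match l, hl1 with
      | i :: l, hl1 =>
        exact hN i (mem_range.2 (hl2 i (by simp))) l
          ⟨by simpa using hl1, fun j hj => hl2 j (by simp [hj])⟩

lemma avg_eq (N : ℕ) (a : ℕ → ℂ) : avg N a = A1 N a := by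
  unfold avg A1
  rw [Complex.real_smul, div_eq_inv_mul]
  push_cast
  rfl

lemma conj_A1 (N : ℕ) (a : ℕ → ℂ) : conj (A1 N a) = A1 N (fun n => conj (a n)) := by
  unfold A1
  rw [Complex.real_smul, map_mul, map_sum, Complex.conj_ofReal, Complex.real_smul]

lemma Bdd_cj {g : X → ℂ} (hg : Bdd g) (s : ℕ) : Bdd (fun x => cj s (g x)) := by
  induction s with
  | zero => exact hg
  | succ s ih => exact ih.qconj

lemma cub_cj (A : Act X μ) (l : List ℤ) (g : X → ℂ) (s : ℕ) :
    cub A l (fun x => cj s (g x)) = fun x => cj s (cub A l g x) := by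
  induction s with
  | zero => rfl
  | succ s ih =>
      have h1 : (fun x => cj (s + 1) (g x)) = fun x => conj (cj s (g x)) := rfl
      rw [h1, cub_conj, ih]
      rfl

section main

variable [IsProbabilityMeasure μ]

omit [IsProbabilityMeasure μ] in
lemma hW' {U : Filter ℕ} {G : ℕ → ℕ → X → ℂ} {f : X → ℂ}
    (hW : ∀ u : X → ℂ, Bdd u →
      Tendsto (fun N => avg N (fun n => ∫ x, G N n x * u x ∂μ)) U (𝓝 (∫ x, f x * u x ∂μ)))
    (s : ℕ) (u : X → ℂ) (hu : Bdd u) :
    Tendsto (fun N => A1 N (fun n => ∫ x, cj s (G N n x) * u x ∂μ)) U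
      (𝓝 (∫ x, cj s (f x) * u x ∂μ)) := by
  induction s generalizing u with
  | zero =>
      have := hW u hu
      simp only [avg_eq] at this
      exact this
  | succ s ih =>
      have h1 := ih (fun x => conj (u x)) hu.qconj
      have h2 := (Complex.continuous_conj.tendsto _).comp h1
      have h3 : ∀ g : X → ℂ, conj (∫ x, cj s (g x) * conj (u x) ∂μ)
          = ∫ x, cj (s + 1) (g x) * u x ∂μ := by
        intro g
        rw [← integral_conj]
        refine integral_congr_ae (Eventually.of_forall fun x => ?_)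
        simp only [cj, map_mul, Complex.conj_conj]
      rw [h3] at h2
      refine h2.congr fun N => ?_
      simp only [Function.comp]
      rw [conj_A1]
      simp only [h3]

omit [IsProbabilityMeasure μ] in
lemma hstar' (A : Act X μ) {U : Filter ℕ} {G : ℕ → ℕ → X → ℂ}
    (hstar : ∀ (k : List ℤ) (χ : X → ℂ) (α : ℝ), k ≠ [] → IsEig A χ α → e α ≠ 1 →
      Tendsto (fun N => avg N (fun n => ∫ x, cub A k (G N n) x * χ x ∂μ)) U (𝓝 0))
    (s : ℕ) (k : List ℤ) (hk : k ≠ []) (χ : X → ℂ) (α : ℝ) (hχ : IsEig A χ α) (hα : e α ≠ 1) :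
    Tendsto (fun N => A1 N (fun n => ∫ x, cub A k (fun x => cj s (G N n x)) x * χ x ∂μ)) U
      (𝓝 0) := by
  induction s generalizing χ α with
  | zero =>
      have := hstar k χ α hk hχ hα
      simp only [avg_eq] at this
      exact this
  | succ s ih =>
      have hχ' : IsEig A (fun x => conj (χ x)) (-α) := by
        refine ⟨Complex.continuous_conj.measurable.comp hχ.1, fun x => ?_, ?_⟩
        · rw [Complex.norm_conj]; exact hχ.2.1 x
        · filter_upwards [hχ.2.2] with x hx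
          rw [hx, e_neg, map_mul]
      have hα' : e (-α) ≠ 1 := by
        intro h
        apply hα
        rw [e_neg] at h
        have := congrArg conj h
        rwa [Complex.conj_conj, map_one] at this
      have h1 := ih _ _ hχ' hα'
      have h2 := (Complex.continuous_conj.tendsto _).comp h1
      rw [map_zero] at h2
      refine h2.congr fun N => ?_
      simp only [Function.comp]
      rw [conj_A1]
      congr 1
      funext n
      rw [← integral_conj]
      refine integral_congr_ae (Eventually.of_forall fun x => ?_)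
      have h3 : (fun x => cj (s + 1) (G N n x)) = fun x => conj (cj s (G N n x)) := rfl
      simp only
      rw [h3, cub_conj]
      simp only [map_mul, Complex.conj_conj]

/-- Step A: choice of the eigenfunctions -/
lemma stepA (A : Act X μ) (f : X → ℂ) (hf : Bdd f) (s K : ℕ) (hK : 1 ≤ K) (c : ℝ) (hc : 0 < c)
    (hsplit : ∀ H ≥ 1, c ≤ av s K (fun l => ravg H (fun h =>
      (Cor A (l.map (fun h : ℕ => (h : ℤ)) ++ [(h : ℤ)]) f) ^ 2)))
    (heig : ∀ (u : X → ℂ), Bdd u → ∀ a : ℝ, 0 < a →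
      (∃ᶠ H : ℕ in atTop, a ≤ ravg H (fun h => (Cor A [(h : ℤ)] u) ^ 2)) →
      ∃ (χ : X → ℂ) (α : ℝ), IsEig A χ α ∧ a / 16 ≤ ‖∫ x, u x * conj (χ x) ∂μ‖ ^ 2) :
    ∃ χ : List ℕ → X → ℂ, (∀ l, QE A (χ l)) ∧
      (∀ l, (∀ x, ‖χ l x‖ = 1) → √(c / 32) ≤
        ‖∫ x, cub A (l.map (fun h : ℕ => (h : ℤ))) f x * χ l x ∂μ‖) ∧
      √(c / 32) * (c / 2) ≤
        (AL s K (fun l => ∫ x, cub A (l.map (fun h : ℕ => (h : ℤ))) f x * χ l x ∂μ)).re := by
  classical
  set cu : List ℕ → X → ℂ := fun l => cub A (l.map (fun h : ℕ => (h : ℤ))) f with hcu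
  have hcub : ∀ l, Bdd (cu l) := fun l => hf.qcub A _
  set b : List ℕ → ℕ → ℝ := fun l H => ravg H (fun h => (Cor A [(h : ℤ)] (cu l)) ^ 2) with hb
  have hCor : ∀ (l : List ℕ) (h : ℕ), Cor A (l.map (fun h : ℕ => (h : ℤ)) ++ [(h : ℤ)]) f
      = Cor A [(h : ℤ)] (cu l) := by
    intro l h
    unfold Cor
    rw [cub_append_single]
    rfl
  have hsplit' : ∀ H ≥ 1, c ≤ AL s K (fun l => b l H) := by
    intro H hH
    have := hsplit H hH
    rw [av_eq] at this
    simp only [hCor] at this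
    exact this
  let fr : List ℕ → Prop := fun l => ∃ᶠ H : ℕ in atTop, c / 2 ≤ b l H
  have hex : ∀ l, ∃ χ : X → ℂ, QE A χ ∧ (fr l → (∀ x, ‖χ x‖ = 1) ∧
      ∃ r : ℝ, √(c / 32) ≤ r ∧ ∫ x, cu l x * χ x ∂μ = (r : ℂ)) ∧ (¬ fr l → ∀ x, χ x = 0) := by
    intro l
    by_cases hl : fr l
    · obtain ⟨χ, α, hχ, h1⟩ := heig (cu l) (hcub l) (c / 2) (by positivity) hl
      set I := ∫ x, cu l x * conj (χ x) ∂μ with hI
      have h2 : √(c / 32) ≤ ‖I‖ := by
        refine Real.sqrt_le_iff.2 ⟨norm_nonneg _, ?_⟩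
        linarith
      have h3 : 0 < ‖I‖ := lt_of_lt_of_le (Real.sqrt_pos.2 (by positivity)) h2
      set θ : ℂ := conj I / ‖I‖ with hθ
      have hθn : ‖θ‖ = 1 := by
        rw [hθ, norm_div, Complex.norm_conj, Complex.norm_real, norm_norm, div_self h3.ne']
      refine ⟨fun x => θ * conj (χ x), ⟨?_, ?_, ?_⟩, ?_, ?_⟩
      · exact measurable_const.mul (Complex.continuous_conj.measurable.comp hχ.1)
      · left
        intro x
        rw [norm_mul, hθn, Complex.norm_conj, hχ.2.1, one_mul]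
      · refine ⟨-α, ?_⟩
        filter_upwards [hχ.2.2] with x hx
        rw [hx, e_neg, map_mul]
        ring
      · intro _
        refine ⟨fun x => ?_, ‖I‖, h2, ?_⟩
        · rw [norm_mul, hθn, Complex.norm_conj, hχ.2.1, one_mul]
        · have h4 : ∫ x, cu l x * (θ * conj (χ x)) ∂μ = θ * I := by
            rw [hI, ← integral_const_mul]
            refine integral_congr_ae (Eventually.of_forall fun x => ?_)
            simp only
            ring
          rw [h4, hθ, div_mul_eq_mul_div, mul_comm (conj I) I, Complex.mul_conj,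
            Complex.normSq_eq_norm_sq]
          have h5 : ((‖I‖ : ℝ) : ℂ) ≠ 0 := by exact_mod_cast h3.ne'
          push_cast
          field_simp
      · intro h; exact absurd hl h
    · exact ⟨fun _ => 0, QE.zero A, fun h => absurd h hl, fun _ _ => rfl⟩
  choose χ hχ1 hχ2 hχ3 using hex
  refine ⟨χ, hχ1, ?_, ?_⟩
  · intro l hl
    by_cases hfl : fr l
    · obtain ⟨-, r, hr, h1⟩ := hχ2 l hfl
      change √(c / 32) ≤ ‖∫ x, cu l x * χ l x ∂μ‖
      rw [h1, Complex.norm_real, Real.norm_of_nonneg ((Real.sqrt_nonneg _).trans hr)]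
      exact hr
    · exfalso
      have h0 := hχ3 l hfl
      have : Nonempty X := by
        by_contra hne
        rw [not_nonempty_iff] at hne
        have h1 : μ Set.univ = 1 := measure_univ
        have h2 : (Set.univ : Set X) = ∅ := Set.eq_empty_of_isEmpty _
        rw [h2, measure_empty] at h1
        exact zero_ne_one h1
      obtain ⟨x⟩ := this
      have := hl x
      rw [h0 x, norm_zero] at this
      exact zero_ne_one this
  · have hfreq : c / 2 ≤ AL s K (fun l => if fr l then (1 : ℝ) else 0) := by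
      have h1 : ∀ l, InL s K l → ∀ᶠ H : ℕ in atTop, ¬ fr l → b l H < c / 2 := by
        intro l _
        by_cases hfl : fr l
        · exact Eventually.of_forall fun H h => absurd hfl h
        · have h2 : ∀ᶠ H : ℕ in atTop, ¬ c / 2 ≤ b l H := not_frequently.1 hfl
          filter_upwards [h2] with H hH _
          exact not_le.1 hH
      obtain ⟨H, hH1, hH2⟩ := ((eventually_InL h1).and (eventually_ge_atTop 1)).exists
      have h3 := hsplit' H hH2
      have h4 : AL s K (fun l => b l H) ≤ AL s K (fun l => (if fr l then (1 : ℝ) else 0) + c / 2) := by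
        refine AL_mono fun l hl => ?_
        by_cases hfl : fr l
        · rw [if_pos hfl]
          have h5 : b l H ≤ 1 := by
            have h6 : ∀ h : ℕ, (Cor A [(h : ℤ)] (cu l)) ^ 2 ≤ 1 := by
              intro h
              have : Cor A [(h : ℤ)] (cu l) ≤ 1 := ((hcub l).qcub A _).qnorm_int_le
              exact pow_le_one₀ (norm_nonneg _) this
            simp only [hb]
            unfold ravg
            have hH0 : (0 : ℝ) < H := by exact_mod_cast hH2
            rw [div_le_one hH0]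
            calc ∑ n ∈ range H, (Cor A [(n : ℤ)] (cu l)) ^ 2 ≤ ∑ n ∈ range H, (1 : ℝ) :=
                  sum_le_sum fun i _ => h6 i
              _ = H := by simp
          linarith
        · rw [if_neg hfl]
          have := hH1 l hl hfl
          linarith
      rw [AL_add, AL_const s hK] at h4
      linarith
    have hre : (AL s K (fun l => ∫ x, cu l x * χ l x ∂μ)).re
        = AL s K (fun l => (∫ x, cu l x * χ l x ∂μ).re) := AL_map Complex.reLm s K _
    change √(c / 32) * (c / 2) ≤ (AL s K (fun l => ∫ x, cu l x * χ l x ∂μ)).re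
    rw [hre]
    calc √(c / 32) * (c / 2) ≤ √(c / 32) * AL s K (fun l => if fr l then (1 : ℝ) else 0) :=
          mul_le_mul_of_nonneg_left hfreq (Real.sqrt_nonneg _)
      _ = AL s K (fun l => √(c / 32) * (if fr l then (1 : ℝ) else 0)) :=
          AL_map (LinearMap.mulLeft ℝ (√(c / 32))) s K _
      _ ≤ _ := by
          refine AL_mono fun l _ => ?_
          by_cases hfl : fr l
          · obtain ⟨-, r, hr, h1⟩ := hχ2 l hfl
            rw [if_pos hfl, h1, Complex.ofReal_re, mul_one]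
            exact hr
          · rw [if_neg hfl, mul_zero]
            have h0 := hχ3 l hfl
            simp only [h0, mul_zero, integral_zero, Complex.zero_re, le_refl]

/-- Step B: most of the cube products of the eigenfunctions are invariant. -/
lemma stepB (A : Act X μ) (U : Filter ℕ) [U.NeBot]
    (G : ℕ → ℕ → X → ℂ) (hG : ∀ N n, Bdd (G N n)) (f : X → ℂ) (hf : Bdd f)
    (hW : ∀ u : X → ℂ, Bdd u →
      Tendsto (fun N => avg N (fun n => ∫ x, G N n x * u x ∂μ)) U (𝓝 (∫ x, f x * u x ∂μ)))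
    (hstar : ∀ (k : List ℤ) (χ : X → ℂ) (α : ℝ), k ≠ [] → IsEig A χ α → e α ≠ 1 →
      Tendsto (fun N => avg N (fun n => ∫ x, cub A k (G N n) x * χ x ∂μ)) U (𝓝 0))
    (s K : ℕ) (hK : 1 ≤ K) (χ : List ℕ → X → ℂ) (hχ : ∀ l, QE A (χ l)) (r : ℝ) (hr : 0 ≤ r)
    (h0 : r ≤ (AL (s + 1) K (fun l =>
      ∫ x, cub A (l.map (fun h : ℕ => (h : ℤ))) f x * χ l x ∂μ)).re) :
    open Classical in
    r ^ (2 ^ (s + 1)) ≤ AL2 (s + 1) K (fun l l' => if (∀ x, ‖XX A l l' χ x‖ = 1) ∧
      (∀ᵐ x ∂μ, XX A l l' χ (A.S 1 x) = XX A l l' χ x) then (1 : ℝ) else 0) := by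
  classical
  obtain ⟨R, hR, hcub⟩ := exists_VF A hf (s + 1)
  set g : List ℕ → List ℕ → ℝ := fun l l' => if (∀ x, ‖XX A l l' χ x‖ = 1) ∧
      (∀ᵐ x ∂μ, XX A l l' χ (A.S 1 x) = XX A l l' χ x) then (1 : ℝ) else 0 with hg
  -- the left hand side
  have hL : AL (s + 1) K (fun l => ∫ x, cub A (l.map (fun h : ℕ => (h : ℤ))) f x * χ l x ∂μ)
      = AL (s + 1) K (fun l => ∫ x, cj (s + 1) (f x) * (R l x * χ l x) ∂μ) := by
    refine AL_congr fun l hl => ?_
    refine integral_congr_ae (Eventually.of_forall fun x => ?_)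
    simp only
    rw [hcub l hl.1]
    ring
  have hlim : Tendsto (fun N => AL (s + 1) K (fun l => A1 N (fun n =>
      ∫ x, cj (s + 1) (G N n x) * (R l x * χ l x) ∂μ))) U
      (𝓝 (AL (s + 1) K (fun l => ∫ x, cj (s + 1) (f x) * (R l x * χ l x) ∂μ))) :=
    tendsto_AL fun l hl => hW' hW (s + 1) _ ((hR.bdd l hl.1).qmul (hχ l).bdd)
  have hlim2 := (hlim.norm).pow (2 ^ (s + 1))
  -- the right hand side
  set term : ℕ → List ℕ → List ℕ → ℂ := fun N l l' => A1 N (fun n =>
    ∫ x, cub A (dif l l') (fun x => cj (s + 1) (G N n x)) x * XX A l l' χ x ∂μ) with hterm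
  have hineq : ∀ N, ‖AL (s + 1) K (fun l => A1 N (fun n =>
      ∫ x, cj (s + 1) (G N n x) * (R l x * χ l x) ∂μ))‖ ^ (2 ^ (s + 1)) ≤
      (AL2 (s + 1) K (fun l l' => term N l l')).re := by
    intro N
    have e1 : AL (s + 1) K (fun l => A1 N (fun n =>
      ∫ x, cj (s + 1) (G N n x) * (R l x * χ l x) ∂μ)) = A1 N (fun n => AL (s + 1) K (fun l =>
        ∫ x, (fun x => cj (s + 1) (G N n x)) x * R l x * χ l x ∂μ)) := by
      rw [A1_AL_comm]
      simp only [mul_assoc]
    have e2 : AL2 (s + 1) K (fun l l' => term N l l') = A1 N (fun n => AL2 (s + 1) K (fun l l' =>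
        ∫ x, cub A (dif l l') (fun x => cj (s + 1) (G N n x)) x * XX A l l' χ x ∂μ)) := by
      unfold AL2
      rw [A1_AL_comm]
      simp only [A1_AL_comm, hterm]
    rw [e1, e2]
    have h6 : ∀ a : ℕ → ℂ, (A1 N a).re = A1 N (fun h => (a h).re) :=
      fun a => A1_map Complex.reLm N a
    rw [h6]
    rcases Nat.eq_zero_or_pos N with rfl | hN
    · simp [A1]
    calc ‖A1 N (fun n => AL (s + 1) K (fun l =>
          ∫ x, (fun x => cj (s + 1) (G N n x)) x * R l x * χ l x ∂μ))‖ ^ (2 ^ (s + 1))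
        ≤ (A1 N (fun n => ‖AL (s + 1) K (fun l =>
          ∫ x, (fun x => cj (s + 1) (G N n x)) x * R l x * χ l x ∂μ)‖)) ^ (2 ^ (s + 1)) :=
          pow_le_pow_left₀ (norm_nonneg _) (norm_A1_le _ _) _
      _ ≤ A1 N (fun n => ‖AL (s + 1) K (fun l =>
          ∫ x, (fun x => cj (s + 1) (G N n x)) x * R l x * χ l x ∂μ)‖ ^ (2 ^ (s + 1))) :=
          A1_pow_le hN _ (fun n => norm_nonneg _) _
      _ ≤ _ := A1_mono fun n _ => gcs1 A hK s R hR _ (Bdd_cj (hG N n) _) χ fun l => (hχ l).bdd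
  have hterm1 : ∀ N l l', ‖term N l l'‖ ≤ 1 := by
    intro N l l'
    rcases Nat.eq_zero_or_pos N with rfl | hN
    · simp [hterm, A1]
    refine (norm_A1_le _ _).trans ?_
    refine (A1_mono fun n _ => (((Bdd_cj (hG N n) (s + 1)).qcub A (dif l l')).qmul
      (QE.XX l l' hχ).bdd).qnorm_int_le).trans ?_
    rw [A1_const hN]
  have hterm0 : ∀ l l', InL (s + 1) K l → InL (s + 1) K l' →
      Tendsto (fun N => if g l l' = 1 then (0 : ℝ) else ‖term N l l'‖) U (𝓝 0) := by
    intro l l' hl hl'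
    by_cases hgl : g l l' = 1
    · simp only [if_pos hgl]
      exact tendsto_const_nhds
    · simp only [if_neg hgl]
      have hQ := QE.XX l l' hχ
      rcases hQ.2.1 with h1 | h1
      · obtain ⟨β, hβ⟩ := hQ.2.2
        have hβ1 : e β ≠ 1 := by
          intro hβ1
          apply hgl
          simp only [hg]
          rw [if_pos]
          refine ⟨h1, ?_⟩
          filter_upwards [hβ] with x hx
          rw [hx, hβ1, one_mul]
        have hk : dif l l' ≠ [] := by
          intro hk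
          have h2 := congrArg List.length hk
          unfold dif at h2
          rw [List.length_zipWith, hl.1, hl'.1] at h2
          simp at h2
        have := hstar' A hstar (s + 1) (dif l l') hk _ β ⟨hQ.1, h1, hβ⟩ hβ1
        exact tendsto_zero_iff_norm_tendsto_zero.1 this
      · have : ∀ N, term N l l' = 0 := by
          intro N
          simp only [hterm, h1, mul_zero, integral_zero]
          simp [A1]
        simp only [this, norm_zero]
        exact tendsto_const_nhds
  have hup : ∀ N, (AL2 (s + 1) K (fun l l' => term N l l')).re ≤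
      AL2 (s + 1) K g + AL2 (s + 1) K (fun l l' => if g l l' = 1 then (0 : ℝ) else ‖term N l l'‖) := by
    intro N
    have h1 : ∀ a : List ℕ → List ℕ → ℂ, (AL2 (s + 1) K a).re
        = AL2 (s + 1) K (fun l l' => (a l l').re) := by
      intro a
      unfold AL2
      have h2 : ∀ b : List ℕ → ℂ, (AL (s + 1) K b).re = AL (s + 1) K (fun l => (b l).re) :=
        fun b => AL_map Complex.reLm (s + 1) K b
      rw [h2]
      simp only [h2]
    rw [h1]
    unfold AL2
    rw [← AL_add]
    simp only [← AL_add]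
    refine AL_mono fun l _ => AL_mono fun l' _ => ?_
    by_cases hgl : g l l' = 1
    · rw [if_pos hgl, hgl]
      have := (Complex.re_le_norm _).trans (hterm1 N l l')
      linarith
    · rw [if_neg hgl]
      have h3 : 0 ≤ g l l' := by
        simp only [hg]
        split_ifs <;> norm_num
      have := Complex.re_le_norm (term N l l')
      linarith
  have hlim3 : Tendsto (fun N => AL2 (s + 1) K g +
      AL2 (s + 1) K (fun l l' => if g l l' = 1 then (0 : ℝ) else ‖term N l l'‖)) U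
      (𝓝 (AL2 (s + 1) K g + AL2 (s + 1) K (fun _ _ => (0 : ℝ)))) := by
    refine tendsto_const_nhds.add ?_
    unfold AL2
    exact tendsto_AL fun l hl => tendsto_AL fun l' hl' => hterm0 l l' hl hl'
  have h00 : AL2 (s + 1) K (fun _ _ => (0 : ℝ)) = 0 := by
    unfold AL2
    rw [AL_const _ hK, AL_const _ hK]
  rw [h00, add_zero] at hlim3
  have hfinal := le_of_tendsto_of_tendsto' hlim2 hlim3 fun N => (hineq N).trans (hup N)
  rw [← hL] at hfinal
  exact (pow_le_pow_left₀ hr (h0.trans (Complex.re_le_norm _)) _).trans hfinal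

/-- Step C and D. -/
lemma stepCD (A : Act X μ) (herg : Ergodic (A.S 1) μ) (f : X → ℂ) (hf : Bdd f)
    (s K : ℕ) (hK : 1 ≤ K) (χ : List ℕ → X → ℂ) (hχ : ∀ l, QE A (χ l)) (r1 r2 : ℝ)
    (hr1 : 0 ≤ r1) (hr2 : 0 ≤ r2)
    (h1 : ∀ l, (∀ x, ‖χ l x‖ = 1) → r1 ≤
        ‖∫ x, cub A (l.map (fun h : ℕ => (h : ℤ))) f x * χ l x ∂μ‖)
    (h2 : open Classical in r2 ≤ AL2 s K (fun l l' => if (∀ x, ‖XX A l l' χ x‖ = 1) ∧
      (∀ᵐ x ∂μ, XX A l l' χ (A.S 1 x) = XX A l l' χ x) then (1 : ℝ) else 0)) :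
    (r1 ^ 2 * r2) ^ (2 ^ s) ≤ 2 ^ s *
      av s K (fun l => (Cor A (l.map (fun h : ℕ => (h : ℤ))) f) ^ 2) := by
  classical
  obtain ⟨l', hl', h3⟩ := exists_of_AL2_le s hK h2
  set g : List ℕ → Prop := fun l => (∀ x, ‖XX A l l' χ x‖ = 1) ∧
      (∀ᵐ x ∂μ, XX A l l' χ (A.S 1 x) = XX A l l' χ x) with hg
  set w : List ℕ → X → ℂ := fun l x => conj (Om A l l' χ x) with hw
  -- the good lists
  have hgood : ∀ l, InL s K l → g l → r1 ≤
      ‖∫ x, cub A (l.map (fun h : ℕ => (h : ℤ))) f x * w l x ∂μ‖ := by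
    intro l hl hgl
    obtain ⟨D, hD⟩ := XX_eq A l l' (hl.1.trans hl'.1.symm) χ
    have hun : ∀ x, ‖χ l (A.S D x)‖ * ‖Om A l l' χ x‖ = 1 := by
      intro x
      rw [← norm_mul, ← hD]
      exact hgl.1 x
    have hχl : ∀ x, ‖χ l x‖ = 1 := by
      rcases (hχ l).2.1 with h4 | h4
      · exact h4
      · intro x
        have := hun x
        rw [h4, norm_zero, zero_mul] at this
        exact absurd this zero_ne_one
    have hOm : ∀ x, ‖Om A l l' χ x‖ = 1 := by
      intro x
      have := hun x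
      rwa [hχl, one_mul] at this
    have hQ := QE.XX l l' hχ
    obtain ⟨κ, hκ⟩ := herg.ae_eq_const_of_ae_eq_comp_ae
      (g := XX A l l' χ) hQ.1.aestronglyMeasurable hgl.2
    obtain ⟨γ, hγ, hγ'⟩ := (hχ l).shift_all
    have hκ1 : ‖κ‖ = 1 := by
      obtain ⟨x, hx⟩ := hκ.exists
      have h5 := hgl.1 x
      rw [hx] at h5
      simpa using h5
    have hae : ∀ᵐ x ∂μ, χ l x = (κ * conj (γ D)) * w l x := by
      filter_upwards [hκ, hγ' D] with x h5 h6
      rw [hD, h6] at h5
      have h7 : Om A l l' χ x * conj (Om A l l' χ x) = 1 := by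
        rw [Complex.mul_conj, Complex.normSq_eq_norm_sq, hOm]
        simp
      have h8 : γ D * conj (γ D) = 1 := by
        rw [Complex.mul_conj, Complex.normSq_eq_norm_sq, hγ]
        simp
      simp only [hw]
      have h9 : γ D * χ l x * Om A l l' χ x = κ := by simpa using h5
      calc χ l x = (γ D * conj (γ D)) * χ l x * (Om A l l' χ x * conj (Om A l l' χ x)) := by
            rw [h7, h8]; ring
        _ = (γ D * χ l x * Om A l l' χ x) * conj (γ D) * conj (Om A l l' χ x) := by ring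
        _ = _ := by rw [h9]
    have h10 : ∫ x, cub A (l.map (fun h : ℕ => (h : ℤ))) f x * χ l x ∂μ
        = (κ * conj (γ D)) * ∫ x, cub A (l.map (fun h : ℕ => (h : ℤ))) f x * w l x ∂μ := by
      rw [← integral_const_mul]
      refine integral_congr_ae ?_
      filter_upwards [hae] with x hx
      rw [hx]
      ring
    have h11 := h1 l hχl
    rw [h10, norm_mul, norm_mul, Complex.norm_conj, hκ1, hγ, one_mul, one_mul] at h11
    exact h11
  -- on the product
  have hPF : PF (InvF A.prod) s (fun l => tens (w l)) := by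
    have hP1 := PF_Om s l' hl'.1 hχ
    have hP2 : PF (QE A) s w := hP1.map (fun f x => conj (f x)) (fun f hf y => by simp [hf y])
      (fun f g => by funext x; simp) (fun f hf => hf.conj)
    exact hP2.map tens (fun f hf y => by simp [tens, hf]) (fun f g => by
      funext z
      simp only [tens, map_mul]
      ring) (fun f hf => hf.tens)
  have hFB : Bdd (tens f) := by
    refine ⟨(hf.meas.comp measurable_fst).mul
      (Complex.continuous_conj.measurable.comp (hf.meas.comp measurable_snd)), ?_⟩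
    intro z
    simp only [tens, norm_mul, Complex.norm_conj]
    exact mul_le_one₀ (hf.le _) (norm_nonneg _) (hf.le _)
  have h4 := gcs2 A.prod hK s (tens f) hFB _ hPF
  have h5 : AL s K (fun l => ∫ z, cub A.prod (l.map (fun h : ℕ => (h : ℤ))) (tens f) z *
      tens (w l) z ∂(μ.prod μ)) = AL s K (fun l =>
        ((‖∫ x, cub A (l.map (fun h : ℕ => (h : ℤ))) f x * w l x ∂μ‖ ^ 2 : ℝ) : ℂ)) := by
    congr 1
    funext l
    rw [cub_tens, ← int_tens]
    refine integral_congr_ae (Eventually.of_forall fun z => ?_)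
    simp only [tens, map_mul]
    ring
  have h6 : r1 ^ 2 * r2 ≤ ‖AL s K (fun l => ∫ z, cub A.prod (l.map (fun h : ℕ => (h : ℤ)))
      (tens f) z * tens (w l) z ∂(μ.prod μ))‖ := by
    rw [h5]
    refine le_trans ?_ (Complex.re_le_norm _)
    have h7 : (AL s K (fun l =>
        ((‖∫ x, cub A (l.map (fun h : ℕ => (h : ℤ))) f x * w l x ∂μ‖ ^ 2 : ℝ) : ℂ))).re
        = AL s K (fun l => ‖∫ x, cub A (l.map (fun h : ℕ => (h : ℤ))) f x * w l x ∂μ‖ ^ 2) :=
      AL_map Complex.reLm s K _
    rw [h7]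
    calc r1 ^ 2 * r2 ≤ r1 ^ 2 * AL s K (fun l => if g l then (1 : ℝ) else 0) :=
          mul_le_mul_of_nonneg_left h3 (by positivity)
      _ = AL s K (fun l => r1 ^ 2 * (if g l then (1 : ℝ) else 0)) :=
          AL_map (LinearMap.mulLeft ℝ (r1 ^ 2)) s K _
      _ ≤ _ := by
          refine AL_mono fun l hl => ?_
          by_cases hgl : g l
          · rw [if_pos hgl, mul_one]
            exact pow_le_pow_left₀ hr1 (hgood l hl hgl) 2
          · rw [if_neg hgl, mul_zero]
            positivity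
  refine (pow_le_pow_left₀ (by positivity) h6 _).trans (h4.trans ?_)
  have h8 : AL2 s K (fun l l' => ‖∫ z, cub A.prod (dif l' l) (tens f) z ∂(μ.prod μ)‖)
      = AL2 s K (fun l l' => (fun m : List ℕ => (Cor A (m.map (fun h : ℕ => (h : ℤ))) f) ^ 2)
        (List.zipWith (fun a b : ℕ => ((a : ℤ) - b).natAbs) l l')) := by
    unfold AL2
    congr 1
    funext l
    congr 1
    funext l'
    change Cor A.prod (dif l' l) (tens f) = (Cor A ((List.zipWith
      (fun a b : ℕ => ((a : ℤ) - b).natAbs) l l').map (fun h : ℕ => (h : ℤ))) f) ^ 2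
    rw [Cor_tens, ← Cor_natAbs A f (dif l' l)]
    congr 2
    unfold dif
    rw [List.map_zipWith, List.map_zipWith]
    rw [List.zipWith_comm]
  rw [h8, av_eq]
  exact AL2_diff_le s (fun m : List ℕ => (Cor A (m.map (fun h : ℕ => (h : ℤ))) f) ^ 2)
    fun m => by positivity

theorem degree_lowering_aux (A : Act X μ) (herg : Ergodic (A.S 1) μ) (U : Filter ℕ) [U.NeBot]
    (G : ℕ → ℕ → X → ℂ) (hG : ∀ N n, Bdd (G N n)) (f : X → ℂ) (hf : Bdd f)
    (hW : ∀ u : X → ℂ, Bdd u →
      Tendsto (fun N => avg N (fun n => ∫ x, G N n x * u x ∂μ)) U (𝓝 (∫ x, f x * u x ∂μ)))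
    (hstar : ∀ (k : List ℤ) (χ : X → ℂ) (α : ℝ), k ≠ [] → IsEig A χ α → e α ≠ 1 →
      Tendsto (fun N => avg N (fun n => ∫ x, cub A k (G N n) x * χ x ∂μ)) U (𝓝 0))
    (s : ℕ) (hs : 1 ≤ s)
    (hsplit : ∃ c > 0, ∀ K ≥ 1, ∀ H ≥ 1, c ≤ av s K (fun l => ravg H (fun h =>
      (Cor A (l.map (fun h : ℕ => (h : ℤ)) ++ [(h : ℤ)]) f) ^ 2)))
    (heig : ∀ (u : X → ℂ), Bdd u → ∀ a : ℝ, 0 < a →
      (∃ᶠ H : ℕ in atTop, a ≤ ravg H (fun h => (Cor A [(h : ℤ)] u) ^ 2)) →
      ∃ (χ : X → ℂ) (α : ℝ), IsEig A χ α ∧ a / 16 ≤ ‖∫ x, u x * conj (χ x) ∂μ‖ ^ 2) :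
    ¬ Null A s f := by
  obtain ⟨c, hc, hsplit⟩ := hsplit
  obtain ⟨s, rfl⟩ : ∃ t, s = t + 1 := ⟨s - 1, by omega⟩
  set r1 := √(c / 32) with hr1
  set r := r1 * (c / 2) with hr
  set r2 := r ^ (2 ^ (s + 1)) with hr2
  have hr1p : 0 < r1 := Real.sqrt_pos.2 (by positivity)
  have hrp : 0 < r := by positivity
  have key : ∀ K ≥ 1, (r1 ^ 2 * r2) ^ (2 ^ (s + 1)) ≤ 2 ^ (s + 1) *
      av (s + 1) K (fun l => (Cor A (l.map (fun h : ℕ => (h : ℤ))) f) ^ 2) := by
    intro K hK
    obtain ⟨χ, hχ, h1, h2⟩ := stepA A f hf (s + 1) K hK c hc (hsplit K hK) heig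
    have h3 := stepB A U G hG f hf hW hstar s K hK χ hχ r hrp.le h2
    exact stepCD A herg f hf (s + 1) K hK χ hχ r1 r2 hr1p.le (by positivity) h1 h3
  intro hnull
  unfold Null at hnull
  have hpos : 0 < (r1 ^ 2 * r2) ^ (2 ^ (s + 1)) / 2 ^ (s + 1) := by positivity
  have h4 := hnull.eventually (gt_mem_nhds hpos)
  obtain ⟨K, hK1, hK2⟩ := (h4.and (eventually_ge_atTop 1)).exists
  have h5 := key K hK2
  rw [lt_div_iff₀ (by positivity)] at hK1
  linarith

end main

end Pool.Agent.JE.DegLow
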