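import Pool.Agent.Helper16.JE.GCS

/-!
Quasi-eigenfunctions and the structure of their cube products (for the degree lowering step).
-/

open MeasureTheory Filter Topology Finset
open scoped BigOperators ComplexConjugate

namespace Pool.Agent.JE.DegLow

open Pool.Agent.JE

variable {X : Type} [MeasurableSpace X] {μ : Measure X}

lemma e_add (a b : ℝ) : e (a + b) = e a * e b := by
  rw [e, e, e, ← Complex.exp_add]
  congr 1
  push_cast
  ring

lemma e_zero : e 0 = 1 := by simp [e]

lemma norm_e (a : ℝ) : ‖e a‖ = 1 := by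
  rw [e]
  have : (2 * Real.pi * a * Complex.I : ℂ) = ((2 * Real.pi * a : ℝ) : ℂ) * Complex.I := by
    push_cast; ring
  rw [this, Complex.norm_exp_ofReal_mul_I]

lemma e_neg (a : ℝ) : e (-a) = conj (e a) := by
  have h1 : e (-a) * e a = 1 := by rw [← e_add, neg_add_cancel, e_zero]
  have h2 : conj (e a) * e a = 1 := by
    rw [mul_comm, Complex.mul_conj, Complex.normSq_eq_norm_sq, norm_e]
    simp
  have h3 : e a ≠ 0 := by
    intro h
    rw [h, mul_zero] at h1
    exact zero_ne_one h1
  exact mul_right_cancel₀ h3 (h1.trans h2.symm)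

/-- an eigenfunction or zero -/
def QE (A : Act X μ) (χ : X → ℂ) : Prop :=
  Measurable χ ∧ ((∀ x, ‖χ x‖ = 1) ∨ (∀ x, χ x = 0)) ∧
    ∃ β : ℝ, ∀ᵐ x ∂μ, χ (A.S 1 x) = e β * χ x

lemma QE.bdd {A : Act X μ} {χ : X → ℂ} (h : QE A χ) : Bdd χ :=
  ⟨h.1, fun x => by
    rcases h.2.1 with h1 | h1
    · exact (h1 x).le
    · rw [h1 x, norm_zero]; exact zero_le_one⟩

lemma QE.one (A : Act X μ) : QE A (fun _ => 1) :=
  ⟨measurable_const, Or.inl fun _ => norm_one, 0, Eventually.of_forall fun _ => by
    simp [e_zero]⟩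

lemma QE.zero (A : Act X μ) : QE A (fun _ => 0) :=
  ⟨measurable_const, Or.inr fun _ => rfl, 0, Eventually.of_forall fun _ => by simp⟩

lemma QE.mul {A : Act X μ} {f g : X → ℂ} (hf : QE A f) (hg : QE A g) :
    QE A (fun x => f x * g x) := by
  refine ⟨hf.1.mul hg.1, ?_, ?_⟩
  · rcases hf.2.1 with h1 | h1
    · rcases hg.2.1 with h2 | h2
      · left
        intro x
        rw [norm_mul, h1, h2, one_mul]
      · right
        intro x
        simp only [h2, mul_zero]
    · right
      intro x
      simp only [h1, zero_mul]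
  · obtain ⟨a, ha⟩ := hf.2.2
    obtain ⟨b, hb⟩ := hg.2.2
    refine ⟨a + b, ?_⟩
    filter_upwards [ha, hb] with x h1 h2
    rw [h1, h2, e_add]
    ring

lemma QE.conj {A : Act X μ} {f : X → ℂ} (hf : QE A f) : QE A (fun x => conj (f x)) := by
  refine ⟨Complex.continuous_conj.measurable.comp hf.1, ?_, ?_⟩
  · rcases hf.2.1 with h1 | h1
    · left
      intro x
      rw [Complex.norm_conj, h1]
    · right
      intro x
      simp only [h1, map_zero]
  · obtain ⟨a, ha⟩ := hf.2.2
    refine ⟨-a, ?_⟩
    filter_upwards [ha] with x h1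
    rw [h1, e_neg, map_mul]

lemma QE.shift {A : Act X μ} {f : X → ℂ} (hf : QE A f) (d : ℤ) : QE A (fun x => f (A.S d x)) := by
  refine ⟨hf.1.comp (A.mp d).measurable, ?_, ?_⟩
  · rcases hf.2.1 with h1 | h1
    · exact Or.inl fun x => h1 _
    · exact Or.inr fun x => h1 _
  · obtain ⟨a, ha⟩ := hf.2.2
    refine ⟨a, ?_⟩
    filter_upwards [ae_shift A d ha] with x h1
    rw [S_comm A d 1, h1]

/-- behaviour under all shifts -/
lemma QE.shift_all {A : Act X μ} {f : X → ℂ} (hf : QE A f) :
    ∃ γ : ℤ → ℂ, (∀ d, ‖γ d‖ = 1) ∧ ∀ d, ∀ᵐ x ∂μ, f (A.S d x) = γ d * f x := by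
  obtain ⟨β, hβ⟩ := hf.2.2
  have hnat : ∀ n : ℕ, ∀ᵐ x ∂μ, f (A.S n x) = e (n * β) * f x := by
    intro n
    induction n with
    | zero =>
        refine Eventually.of_forall fun x => ?_
        simp [A.zero, e_zero]
    | succ n ih =>
        filter_upwards [ih, ae_shift A (n : ℤ) hβ] with x h1 h2
        have h3 : A.S ((n + 1 : ℕ) : ℤ) x = A.S 1 (A.S (n : ℤ) x) := by
          rw [S_S]
          congr 1
          push_cast
          ring
        rw [h3, h2, h1, ← mul_assoc, ← e_add]
        congr 2
        push_cast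
        ring
  refine ⟨fun d => e (d * β), fun d => norm_e _, fun d => ?_⟩
  obtain ⟨n, rfl | rfl⟩ := d.eq_nat_or_neg
  · simpa using hnat n
  · filter_upwards [ae_shift A (-(n : ℤ)) (hnat n)] with x h1
    rw [S_S, add_neg_cancel, A.zero] at h1
    rw [h1, ← mul_assoc, ← e_add]
    have : (((-(n : ℤ) : ℤ) : ℝ) * β + n * β) = 0 := by push_cast; ring
    rw [this, e_zero, one_mul]

lemma QE.tens [IsProbabilityMeasure μ] {A : Act X μ} {f : X → ℂ} (hf : QE A f) :
    InvF A.prod (tens f) := by
  refine ⟨⟨?_, ?_⟩, ?_⟩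
  · exact (hf.1.comp measurable_fst).mul
      (Complex.continuous_conj.measurable.comp (hf.1.comp measurable_snd))
  · intro z
    simp only [Pool.Agent.JE.tens, norm_mul, Complex.norm_conj]
    exact mul_le_one₀ (hf.bdd.le _) (norm_nonneg _) (hf.bdd.le _)
  · obtain ⟨γ, hγ, h⟩ := hf.shift_all
    intro d
    have h1 : ∀ᵐ z ∂(μ.prod μ), f (A.S d z.1) = γ d * f z.1 :=
      Measure.quasiMeasurePreserving_fst.ae (h d)
    have h2 : ∀ᵐ z ∂(μ.prod μ), f (A.S d z.2) = γ d * f z.2 :=
      Measure.quasiMeasurePreserving_snd.ae (h d)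
    filter_upwards [h1, h2] with z h3 h4
    simp only [Pool.Agent.JE.tens, Act.prod]
    rw [h3, h4, map_mul]
    have h5 : γ d * conj (γ d) = 1 := by
      rw [Complex.mul_conj, Complex.normSq_eq_norm_sq, hγ]
      simp
    linear_combination (f z.1 * conj (f z.2)) * h5

/-! ### structure of `XX` -/

lemma XX_mul (A : Act X μ) (l l' : List ℕ) (χ ψ : List ℕ → X → ℂ) :
    XX A l l' (fun m x => χ m x * ψ m x) = fun x => XX A l l' χ x * XX A l l' ψ x := by
  induction l generalizing l' χ ψ with
  | nil => simp only [XX]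
  | cons h l ih =>
      cases l' with
      | nil => simp only [XX]
      | cons h' l' =>
          simp only [XX_cons]
          rw [← ih]
          congr 1
          funext m x
          simp only [map_mul]
          ring

lemma XX_conj (A : Act X μ) (l l' : List ℕ) (χ : List ℕ → X → ℂ) :
    XX A l l' (fun m x => conj (χ m x)) = fun x => conj (XX A l l' χ x) := by
  induction l generalizing l' χ with
  | nil => simp only [XX]
  | cons h l ih =>
      cases l' with
      | nil => simp only [XX]
      | cons h' l' =>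
          simp only [XX_cons]
          rw [← ih]
          congr 1
          funext m x
          simp only [map_mul]

lemma XX_shift (A : Act X μ) (l l' : List ℕ) (d : ℤ) (χ : List ℕ → X → ℂ) :
    XX A l l' (fun m x => χ m (A.S d x)) = fun x => XX A l l' χ (A.S d x) := by
  induction l generalizing l' χ with
  | nil => simp only [XX]
  | cons h l ih =>
      cases l' with
      | nil => simp only [XX]
      | cons h' l' =>
          simp only [XX_cons]
          rw [← ih]
          congr 1
          funext m x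
          rw [S_comm]

lemma XX_cons' (A : Act X μ) (h h' : ℕ) (l l' : List ℕ) (χ : List ℕ → X → ℂ) :
    XX A (h :: l) (h' :: l') χ = fun x => XX A l l' (fun m => χ (h :: m)) (A.S ((h' : ℤ) - h) x) *
      conj (XX A l l' (fun m => χ (h' :: m)) x) := by
  rw [XX_cons, XX_mul A l l' (fun m x => χ (h :: m) (A.S ((h' : ℤ) - h) x))
    (fun m x => conj (χ (h' :: m) x)), XX_conj A l l' (fun m => χ (h' :: m)),
    XX_shift A l l' _ (fun m => χ (h :: m))]

lemma QE.XX {A : Act X μ} (l l' : List ℕ) {χ : List ℕ → X → ℂ} (hχ : ∀ l, QE A (χ l)) :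
    QE A (XX A l l' χ) := by
  induction l generalizing l' χ with
  | nil => exact hχ []
  | cons h l ih =>
      cases l' with
      | nil => exact hχ []
      | cons h' l' =>
          rw [XX_cons]
          exact ih l' fun m => ((hχ _).shift _).mul (hχ _).conj

/-- the product of all vertices but one -/
noncomputable def Om (A : Act X μ) : List ℕ → List ℕ → (List ℕ → X → ℂ) → X → ℂ
  | h :: l, h' :: l', χ => fun x => conj (Pool.Agent.JE.DegLow.XX A l l' (fun m => χ (h' :: m)) x) *
      Om A l l' (fun m => χ (h :: m)) (A.S ((h' : ℤ) - h) x)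
  | _, _, _ => fun _ => 1

lemma Om_nil (A : Act X μ) (χ : List ℕ → X → ℂ) : Om A [] [] χ = fun _ => 1 := rfl

lemma Om_cons (A : Act X μ) (h h' : ℕ) (l l' : List ℕ) (χ : List ℕ → X → ℂ) (x : X) :
    Om A (h :: l) (h' :: l') χ x = conj (Pool.Agent.JE.DegLow.XX A l l' (fun m => χ (h' :: m)) x) *
      Om A l l' (fun m => χ (h :: m)) (A.S ((h' : ℤ) - h) x) := rfl

lemma XX_eq (A : Act X μ) (l l' : List ℕ) (hl : l.length = l'.length) (χ : List ℕ → X → ℂ) :
    ∃ D : ℤ, ∀ x, XX A l l' χ x = χ l (A.S D x) * Om A l l' χ x := by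
  induction l generalizing l' χ with
  | nil =>
      cases l' with
      | nil =>
          refine ⟨0, fun x => ?_⟩
          rw [XX_nil, Om_nil, A.zero, mul_one]
      | cons h' l' => simp at hl
  | cons h l ih =>
      cases l' with
      | nil => simp at hl
      | cons h' l' =>
          obtain ⟨D, hD⟩ := ih l' (by simpa using hl) (fun m => χ (h :: m))
          refine ⟨D + ((h' : ℤ) - h), fun x => ?_⟩
          rw [XX_cons', Om_cons]
          simp only
          rw [hD, S_S]
          ring

lemma PF_Om {A : Act X μ} (s : ℕ) (l' : List ℕ) (hl' : l'.length = s) {χ : List ℕ → X → ℂ}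
    (hχ : ∀ l, QE A (χ l)) : PF (QE A) s (fun l => Om A l l' χ) := by
  induction s generalizing l' χ with
  | zero =>
      rw [List.length_eq_zero_iff] at hl'
      subst hl'
      intro x
      rfl
  | succ s ih =>
      match l', hl' with
      | h' :: l', hl' =>
        refine ⟨fun l x => conj (XX A l l' (fun m => χ (h' :: m)) x), fun l _ =>
          (QE.XX l l' fun m => hχ _).conj,
          fun h l x => Om A l l' (fun m => χ (h :: m)) (A.S ((h' : ℤ) - h) x), fun h => ?_, ?_⟩
        · exact (ih l' (by simpa using hl') (fun m => hχ (h :: m))).map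
            (fun f x => f (A.S ((h' : ℤ) - h) x)) (fun f hf y => hf _) (fun f g => rfl)
            (fun f hf => hf.shift _)
        · intro h l x
          rfl

end Pool.Agent.JE.DegLow
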