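import Pool.Agent.Helper16.JE.Cube

/-!
The two Gowers-Cauchy-Schwarz inequalities of the degree lowering step.
-/

open MeasureTheory Filter Topology Finset
open scoped BigOperators ComplexConjugate

namespace Pool.Agent.JE.DegLow

open Pool.Agent.JE

variable {X : Type} [MeasurableSpace X] {μ : Measure X}

/-! ### first inequality -/

/-- differences of lists, second minus first -/
def dif (l l' : List ℕ) : List ℤ := List.zipWith (fun a b : ℕ => (b : ℤ) - a) l l'

lemma dif_nil : dif [] [] = [] := rfl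

lemma dif_cons (h h' : ℕ) (l l' : List ℕ) :
    dif (h :: l) (h' :: l') = ((h' : ℤ) - h) :: dif l l' := rfl

/-- products `∏ S^{h_j} V_j (h_{j+1}, …)` -/
def VF (A : Act X μ) : ℕ → (List ℕ → X → ℂ) → Prop
  | 0, R => ∀ x, R [] x = 1
  | s + 1, R => ∃ V : List ℕ → X → ℂ, (∀ l, Bdd (V l)) ∧ ∃ R' : List ℕ → X → ℂ, VF A s R' ∧
      ∀ h l x, R (h :: l) x = V l (A.S h x) * R' l x

lemma VF.bdd {A : Act X μ} {s : ℕ} {R : List ℕ → X → ℂ} (hR : VF A s R) (l : List ℕ)
    (hl : l.length = s) : Bdd (R l) := by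
  induction s generalizing R l with
  | zero =>
      rw [List.length_eq_zero_iff] at hl
      subst hl
      have : R [] = fun _ => 1 := funext hR
      rw [this]
      exact bdd_one
  | succ s ih =>
      obtain ⟨V, hV, R', hR', hR⟩ := hR
      match l, hl with
      | h :: l, hl =>
        have h1 : R (h :: l) = fun x => V l (A.S h x) * R' l x := funext (hR h l)
        rw [h1]
        exact ((hV l).qshift A h).qmul (ih hR' l (by simpa using hl))

lemma VF.dl {A : Act X μ} {s : ℕ} {R : List ℕ → X → ℂ} (hR : VF A s R) (d : ℤ) :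
    VF A s (fun l => Dl A d (R l)) := by
  induction s generalizing R with
  | zero =>
      intro x
      simp only [Dl]
      rw [hR, hR]
      simp
  | succ s ih =>
      obtain ⟨V, hV, R', hR', hR⟩ := hR
      refine ⟨fun l => Dl A d (V l), fun l => (hV l).qDl A d, fun l => Dl A d (R' l), ih hR', ?_⟩
      intro h l x
      simp only [Dl, hR, map_mul]
      rw [S_comm A h d]
      ring

lemma VF.conj {A : Act X μ} {s : ℕ} {R : List ℕ → X → ℂ} (hR : VF A s R) :
    VF A s (fun l x => conj (R l x)) := by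
  induction s generalizing R with
  | zero =>
      intro x
      simp only
      rw [hR]
      simp
  | succ s ih =>
      obtain ⟨V, hV, R', hR', hR⟩ := hR
      refine ⟨fun l x => conj (V l x), fun l => (hV l).qconj, fun l x => conj (R' l x), ih hR', ?_⟩
      intro h l x
      simp only [hR, map_mul]

/-- iterated conjugation -/
noncomputable def cj : ℕ → ℂ → ℂ
  | 0, z => z
  | s + 1, z => conj (cj s z)

/-- the cube product with the vertex `0` isolated -/
lemma exists_VF (A : Act X μ) {f : X → ℂ} (hf : Bdd f) (s : ℕ) :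
    ∃ R : List ℕ → X → ℂ, VF A s R ∧
      ∀ l : List ℕ, l.length = s → ∀ x,
        cub A (l.map (fun h : ℕ => (h : ℤ))) f x = R l x * cj s (f x) := by
  induction s with
  | zero =>
      refine ⟨fun _ _ => 1, fun _ => rfl, ?_⟩
      intro l hl x
      rw [List.length_eq_zero_iff] at hl
      subst hl
      simp [cub, cj]
  | succ s ih =>
      obtain ⟨R, hR, h⟩ := ih
      refine ⟨fun L x => match L with
        | [] => 1
        | h :: l => cub A (l.map (fun h : ℕ => (h : ℤ))) f (A.S h x) * conj (R l x), ?_, ?_⟩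
      · refine ⟨fun l => cub A (l.map (fun h : ℕ => (h : ℤ))) f, fun l => hf.qcub A _,
          fun l x => conj (R l x), hR.conj, ?_⟩
        intro h l x
        rfl
      · intro l hl x
        match l, hl with
        | a :: l, hl =>
          simp only [List.map_cons]
          rw [cub_cons]
          simp only
          rw [h l (by simpa using hl) x, map_mul, cj]
          ring

/-- the cube products of the eigenfunctions -/
noncomputable def XX (A : Act X μ) : List ℕ → List ℕ → (List ℕ → X → ℂ) → X → ℂ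
  | h :: l, h' :: l', χ => XX A l l'
      (fun m x => χ (h :: m) (A.S ((h' : ℤ) - h) x) * conj (χ (h' :: m) x))
  | _, _, χ => χ []

lemma XX_nil (A : Act X μ) (χ : List ℕ → X → ℂ) : XX A [] [] χ = χ [] := rfl

lemma XX_cons (A : Act X μ) (h h' : ℕ) (l l' : List ℕ) (χ : List ℕ → X → ℂ) :
    XX A (h :: l) (h' :: l') χ = XX A l l'
      (fun m x => χ (h :: m) (A.S ((h' : ℤ) - h) x) * conj (χ (h' :: m) x)) := rfl

theorem gcs1 [IsProbabilityMeasure μ] (A : Act X μ) {K : ℕ} (hK : 1 ≤ K) (s : ℕ)
    (R : List ℕ → X → ℂ) (hR : VF A (s + 1) R) (G : X → ℂ) (hG : Bdd G)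
    (χ : List ℕ → X → ℂ) (hχ : ∀ l, Bdd (χ l)) :
    ‖AL (s + 1) K (fun l => ∫ x, G x * R l x * χ l x ∂μ)‖ ^ (2 ^ (s + 1)) ≤
      (AL2 (s + 1) K (fun l l' => ∫ x, cub A (dif l l') G x * XX A l l' χ x ∂μ)).re := by
  induction s generalizing R G χ with
  | zero =>
      obtain ⟨V, hV, R', hR', hR⟩ := hR
      have h1 := cs_step A 0 hK (fun h => (h : ℤ)) V (fun h l x => G x * R' l x * χ (h :: l) x)
        (fun l _ => hV l) (fun h l hl => (hG.qmul (hR'.bdd l hl)).qmul (hχ _))
      have h2 : AL (0 + 1) K (fun l => ∫ x, G x * R l x * χ l x ∂μ)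
          = A1 K (fun h => AL 0 K (fun l => ∫ x, V l (A.S ((h : ℕ) : ℤ) x) *
            (G x * R' l x * χ (h :: l) x) ∂μ)) := by
        rw [AL_succ]
        congr 1
        funext h
        congr 1
        funext l
        refine integral_congr_ae (Eventually.of_forall fun x => ?_)
        simp only
        rw [hR]
        ring
      rw [h2]
      rw [zero_add, pow_one]
      refine h1.trans (le_of_eq ?_)
      rw [AL2_succ]
      congr 2
      funext h
      congr 1
      funext h'
      simp only [AL, AL2]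
      refine integral_congr_ae (Eventually.of_forall fun x => ?_)
      simp only [dif_cons, dif_nil, XX_cons, XX_nil, cub, Dl]
      have hR0 : ∀ x, R' [] x = 1 := hR'
      rw [hR0, hR0]
      simp only [map_mul, mul_one]
      ring
  | succ s ih =>
      obtain ⟨V, hV, R', hR', hR⟩ := hR
      have h1 := cs_step A (s + 1) hK (fun h => (h : ℤ)) V
        (fun h l x => G x * R' l x * χ (h :: l) x)
        (fun l _ => hV l) (fun h l hl => (hG.qmul (hR'.bdd l hl)).qmul (hχ _))
      have h2 : AL (s + 1 + 1) K (fun l => ∫ x, G x * R l x * χ l x ∂μ)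
          = A1 K (fun h => AL (s + 1) K (fun l => ∫ x, V l (A.S ((h : ℕ) : ℤ) x) *
            (G x * R' l x * χ (h :: l) x) ∂μ)) := by
        rw [AL_succ]
        congr 1
        funext h
        congr 1
        funext l
        refine integral_congr_ae (Eventually.of_forall fun x => ?_)
        simp only
        rw [hR]
        ring
      rw [h2]
      have h3 : (2 : ℕ) ^ (s + 1 + 1) = 2 * 2 ^ (s + 1) := by ring
      rw [h3, pow_mul]
      refine (pow_le_pow_left₀ (by positivity) h1 _).trans ?_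
      rw [AL2_succ]
      -- the inner averages
      set Q : ℕ → ℕ → ℂ := fun h h' => AL (s + 1) K (fun l =>
        ∫ x, (Dl A ((h' : ℤ) - h) G x) * (Dl A ((h' : ℤ) - h) (R' l) x) *
          (χ (h :: l) (A.S ((h' : ℤ) - h) x) * conj (χ (h' :: l) x)) ∂μ) with hQ
      have h4 : A1 K (fun h => A1 K (fun h' => AL (s + 1) K (fun l =>
          ∫ x, (G (A.S ((h' : ℤ) - h) x) * R' l (A.S ((h' : ℤ) - h) x) *
            χ (h :: l) (A.S ((h' : ℤ) - h) x)) * conj (G x * R' l x * χ (h' :: l) x) ∂μ)))
          = A1 K (fun h => A1 K (fun h' => Q h h')) := by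
        congr 1
        funext h
        congr 1
        funext h'
        rw [hQ]
        congr 1
        funext l
        refine integral_congr_ae (Eventually.of_forall fun x => ?_)
        simp only [Dl, map_mul]
        ring
      rw [h4]
      have h5 : ∀ h h', ‖Q h h'‖ ^ (2 ^ (s + 1)) ≤
          (AL2 (s + 1) K (fun l l' => ∫ x, cub A (dif (h :: l) (h' :: l')) G x *
            XX A (h :: l) (h' :: l') χ x ∂μ)).re := by
        intro h h'
        exact ih (fun l => Dl A ((h' : ℤ) - h) (R' l)) (hR'.dl _) (Dl A ((h' : ℤ) - h) G)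
          (hG.qDl A _) (fun l x => χ (h :: l) (A.S ((h' : ℤ) - h) x) * conj (χ (h' :: l) x))
          (fun l => ((hχ _).qshift A _).qmul (hχ _).qconj)
      calc (A1 K (fun h => A1 K (fun h' => Q h h'))).re ^ (2 ^ (s + 1))
          ≤ ‖A1 K (fun h => A1 K (fun h' => Q h h'))‖ ^ (2 ^ (s + 1)) := by
            refine pow_le_pow_left₀ ?_ (Complex.re_le_norm _) _
            refine le_trans ?_ (h1.trans (le_of_eq (congrArg Complex.re h4)))
            positivity
        _ ≤ (A1 K (fun h => A1 K (fun h' => ‖Q h h'‖))) ^ (2 ^ (s + 1)) :=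
            pow_le_pow_left₀ (norm_nonneg _) ((norm_A1_le _ _).trans
              (A1_mono fun h _ => norm_A1_le _ _)) _
        _ ≤ A1 K (fun h => A1 K (fun h' => ‖Q h h'‖ ^ (2 ^ (s + 1)))) := by
            refine (A1_pow_le hK _ (fun h => A1_nonneg fun h' => norm_nonneg _) _).trans ?_
            exact A1_mono fun h _ => A1_pow_le hK _ (fun h' => norm_nonneg _) _
        _ ≤ A1 K (fun h => A1 K (fun h' => (AL2 (s + 1) K (fun l l' =>
              ∫ x, cub A (dif (h :: l) (h' :: l')) G x *
                XX A (h :: l) (h' :: l') χ x ∂μ)).re)) :=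
            A1_mono fun h _ => A1_mono fun h' _ => h5 h h'
        _ = _ := by
            have h6 : ∀ a : ℕ → ℂ, (A1 K a).re = A1 K (fun h => (a h).re) :=
              fun a => A1_map Complex.reLm K a
            rw [h6]
            simp only [h6]

/-! ### second inequality -/

/-- bounded and invariant (almost everywhere) -/
def InvF (A : Act X μ) (Z : X → ℂ) : Prop := Bdd Z ∧ ∀ d : ℤ, ∀ᵐ x ∂μ, Z (A.S d x) = Z x

/-- products `∏ Z_j (h_1, …, h_s)` with `Z_j` in a class `P` and independent of `h_j` -/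
def PF (P : (X → ℂ) → Prop) : ℕ → (List ℕ → X → ℂ) → Prop
  | 0, Φ => ∀ x, Φ [] x = 1
  | s + 1, Φ => ∃ Z : List ℕ → X → ℂ, (∀ l, l.length = s → P (Z l)) ∧
      ∃ Ψ : ℕ → List ℕ → X → ℂ, (∀ h, PF P s (Ψ h)) ∧ ∀ h l x, Φ (h :: l) x = Z l x * Ψ h l x

omit [MeasurableSpace X] in
lemma PF.mul {P : (X → ℂ) → Prop} (hP : ∀ f g, P f → P g → P (fun x => f x * g x)) {s : ℕ}
    {Φ Φ' : List ℕ → X → ℂ} (h : PF P s Φ) (h' : PF P s Φ') :
    PF P s (fun l x => Φ l x * Φ' l x) := by
  induction s generalizing Φ Φ' with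
  | zero =>
      intro x
      simp only
      rw [h, h', one_mul]
  | succ s ih =>
      obtain ⟨Z, hZ, Ψ, hΨ, hΦ⟩ := h
      obtain ⟨Z', hZ', Ψ', hΨ', hΦ'⟩ := h'
      refine ⟨fun l x => Z l x * Z' l x, fun l hl => hP _ _ (hZ l hl) (hZ' l hl),
        fun h l x => Ψ h l x * Ψ' h l x, fun h => ih (hΨ h) (hΨ' h), ?_⟩
      intro h l x
      simp only [hΦ, hΦ']
      ring

omit [MeasurableSpace X] in
lemma PF.map {Y : Type} {P : (X → ℂ) → Prop} {P' : (Y → ℂ) → Prop} (T : (X → ℂ) → (Y → ℂ))
    (hT1 : ∀ f, (∀ x, f x = 1) → ∀ y, T f y = 1)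
    (hT : ∀ f g, T (fun x => f x * g x) = fun y => T f y * T g y) (hP : ∀ f, P f → P' (T f))
    {s : ℕ} {Φ : List ℕ → X → ℂ} (h : PF P s Φ) : PF P' s (fun l => T (Φ l)) := by
  induction s generalizing Φ with
  | zero => exact fun y => hT1 _ h y
  | succ s ih =>
      obtain ⟨Z, hZ, Ψ, hΨ, hΦ⟩ := h
      refine ⟨fun l => T (Z l), fun l hl => hP _ (hZ l hl), fun h l => T (Ψ h l),
        fun h => ih (hΨ h), ?_⟩
      intro h l x
      have h1 : Φ (h :: l) = fun x => Z l x * Ψ h l x := funext (hΦ h l)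
      change T (Φ (h :: l)) x = T (Z l) x * T (Ψ h l) x
      rw [h1, hT]

omit [MeasurableSpace X] in
lemma PF.all {P : (X → ℂ) → Prop} (hP1 : P (fun _ => 1))
    (hP : ∀ f g, P f → P g → P (fun x => f x * g x)) {s : ℕ}
    {Φ : List ℕ → X → ℂ} (h : PF P s Φ) (l : List ℕ) (hl : l.length = s) : P (Φ l) := by
  induction s generalizing Φ l with
  | zero =>
      rw [List.length_eq_zero_iff] at hl
      subst hl
      have : Φ [] = fun _ => 1 := funext h
      rw [this]
      exact hP1
  | succ s ih =>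
      obtain ⟨Z, hZ, Ψ, hΨ, hΦ⟩ := h
      match l, hl with
      | h :: l, hl =>
        have h1 : Φ (h :: l) = fun x => Z l x * Ψ h l x := funext (hΦ h l)
        rw [h1]
        exact hP _ _ (hZ l (by simpa using hl)) (ih (hΨ h) l (by simpa using hl))

lemma InvF.one (A : Act X μ) : InvF A (fun _ => 1) :=
  ⟨bdd_one, fun _ => Eventually.of_forall fun _ => rfl⟩

lemma InvF.mul {A : Act X μ} {f g : X → ℂ} (hf : InvF A f) (hg : InvF A g) :
    InvF A (fun x => f x * g x) :=
  ⟨hf.1.qmul hg.1, fun d => by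
    filter_upwards [hf.2 d, hg.2 d] with x h1 h2
    rw [h1, h2]⟩

lemma InvF.conj {A : Act X μ} {f : X → ℂ} (hf : InvF A f) :
    InvF A (fun x => conj (f x)) :=
  ⟨hf.1.qconj, fun d => by
    filter_upwards [hf.2 d] with x h1
    rw [h1]⟩

theorem gcs2 [IsProbabilityMeasure μ] (A : Act X μ) {K : ℕ} (hK : 1 ≤ K) (s : ℕ)
    (F : X → ℂ) (hF : Bdd F) (Φ : List ℕ → X → ℂ) (hΦ : PF (InvF A) s Φ) :
    ‖AL s K (fun l => ∫ x, cub A (l.map (fun h : ℕ => (h : ℤ))) F x * Φ l x ∂μ)‖ ^ (2 ^ s) ≤
      AL2 s K (fun l l' => ‖∫ x, cub A (dif l' l) F x ∂μ‖) := by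
  induction s generalizing F Φ with
  | zero =>
      simp only [AL, AL2, pow_zero, pow_one]
      refine le_of_eq ?_
      congr 1
      refine integral_congr_ae (Eventually.of_forall fun x => ?_)
      simp only [List.map_nil, cub, dif_nil]
      have : ∀ x, Φ [] x = 1 := hΦ
      rw [this, mul_one]
  | succ s ih =>
      obtain ⟨Z, hZ, Ψ, hΨ, hΦ⟩ := hΦ
      have hΨall : ∀ h l, l.length = s → InvF A (Ψ h l) := fun h l hl =>
        (hΨ h).all (InvF.one A) (fun _ _ => InvF.mul) l hl
      have h1 := cs_step A s hK (fun h => -(h : ℤ))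
        (fun l x => conj (cub A (l.map (fun h : ℕ => (h : ℤ))) F x) * Z l x)
        (fun h l x => cub A (l.map (fun h : ℕ => (h : ℤ))) F x * Ψ h l x)
        (fun l hl => (hF.qcub A _).qconj.qmul (hZ l hl).1)
        (fun h l hl => (hF.qcub A _).qmul (hΨall h l hl).1)
      have h2 : AL (s + 1) K (fun l => ∫ x, cub A (l.map (fun h : ℕ => (h : ℤ))) F x * Φ l x ∂μ)
          = A1 K (fun h => AL s K (fun l =>
            ∫ x, (conj (cub A (l.map (fun h : ℕ => (h : ℤ))) F (A.S (-((h : ℕ) : ℤ)) x)) *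
              Z l (A.S (-((h : ℕ) : ℤ)) x)) *
              (cub A (l.map (fun h : ℕ => (h : ℤ))) F x * Ψ h l x) ∂μ)) := by
        rw [AL_succ]
        congr 1
        funext h
        refine AL_congr fun l hl => ?_
        rw [← int_shift A (-((h : ℕ) : ℤ)) (fun x =>
          cub A ((h :: l).map (fun h : ℕ => (h : ℤ))) F x * Φ (h :: l) x)]
        refine integral_congr_ae ?_
        filter_upwards [(hΨall h l hl.1).2 (-((h : ℕ) : ℤ))] with x hx
        simp only [List.map_cons]
        rw [cub_cons, hΦ]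
        simp only
        rw [S_S, add_neg_cancel, A.zero, hx]
        ring
      rw [h2]
      have h3 : (2 : ℕ) ^ (s + 1) = 2 * 2 ^ s := by ring
      rw [h3, pow_mul]
      refine (pow_le_pow_left₀ (by positivity) h1 _).trans ?_
      rw [AL2_succ]
      set Q : ℕ → ℕ → ℂ := fun h h' => AL s K (fun l =>
        ∫ x, cub A (l.map (fun h : ℕ => (h : ℤ))) (Dl A ((h : ℤ) - h') F) x *
          (Ψ h l x * conj (Ψ h' l x)) ∂μ) with hQ
      have h4 : A1 K (fun h => A1 K (fun h' => AL s K (fun l =>
          ∫ x, (cub A (l.map (fun h : ℕ => (h : ℤ))) F (A.S (-(h' : ℤ) - -(h : ℤ)) x) *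
            Ψ h l (A.S (-(h' : ℤ) - -(h : ℤ)) x)) *
            conj (cub A (l.map (fun h : ℕ => (h : ℤ))) F x * Ψ h' l x) ∂μ)))
          = A1 K (fun h => A1 K (fun h' => Q h h')) := by
        congr 1
        funext h
        congr 1
        funext h'
        rw [hQ]
        refine AL_congr fun l hl => ?_
        refine integral_congr_ae ?_
        filter_upwards [(hΨall h l hl.1).2 (-(h' : ℤ) - -(h : ℤ))] with x hx
        have h5 : cub A (l.map (fun h : ℕ => (h : ℤ))) (Dl A ((h : ℤ) - h') F) x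
            = cub A (((h : ℤ) - h') :: l.map (fun h : ℕ => (h : ℤ))) F x := rfl
        rw [h5, cub_cons, hx]
        have h6 : -(h' : ℤ) - -(h : ℤ) = (h : ℤ) - h' := by ring
        rw [h6]
        simp only [map_mul]
        ring
      rw [h4]
      have h5 : ∀ h h', ‖Q h h'‖ ^ (2 ^ s) ≤
          AL2 s K (fun l l' => ‖∫ x, cub A (dif (h' :: l') (h :: l)) F x ∂μ‖) := by
        intro h h'
        exact ih (Dl A ((h : ℤ) - h') F) (hF.qDl A _) (fun l x => Ψ h l x * conj (Ψ h' l x))
          ((hΨ h).mul (fun _ _ => InvF.mul) ((hΨ h').map (fun f x => conj (f x))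
            (fun f hf y => by simp [hf y]) (fun f g => by funext x; simp)
            (fun f hf => hf.conj)))
      calc (A1 K (fun h => A1 K (fun h' => Q h h'))).re ^ (2 ^ s)
          ≤ ‖A1 K (fun h => A1 K (fun h' => Q h h'))‖ ^ (2 ^ s) := by
            refine pow_le_pow_left₀ ?_ (Complex.re_le_norm _) _
            refine le_trans ?_ (h1.trans (le_of_eq (congrArg Complex.re h4)))
            positivity
        _ ≤ (A1 K (fun h => A1 K (fun h' => ‖Q h h'‖))) ^ (2 ^ s) :=
            pow_le_pow_left₀ (norm_nonneg _) ((norm_A1_le _ _).trans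
              (A1_mono fun h _ => norm_A1_le _ _)) _
        _ ≤ A1 K (fun h => A1 K (fun h' => ‖Q h h'‖ ^ (2 ^ s))) := by
            refine (A1_pow_le hK _ (fun h => A1_nonneg fun h' => norm_nonneg _) _).trans ?_
            exact A1_mono fun h _ => A1_pow_le hK _ (fun h' => norm_nonneg _) _
        _ ≤ _ := A1_mono fun h _ => A1_mono fun h' _ => h5 h h'

end Pool.Agent.JE.DegLow
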