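import Pool.Agent.Helper16.JE.DegLow
import Pool.Agent.Helper29.JE.Null
import Pool.Agent.Helper64.JE.Eig

/-!
Degree lowering (T10), final form.
-/

open MeasureTheory Filter Topology Finset
open scoped BigOperators ComplexConjugate

namespace Pool.Agent.JE

theorem degree_lowering {X : Type} [MeasurableSpace X] {μ : Measure X} [IsProbabilityMeasure μ]
    (A : Act X μ) (herg : Ergodic (A.S 1) μ) (U : Filter ℕ) [U.NeBot]
    (G : ℕ → ℕ → X → ℂ) (hG : ∀ N n, Bdd (G N n)) (f : X → ℂ) (hf : Bdd f)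
    (hW : ∀ u : X → ℂ, Bdd u →
      Tendsto (fun N => avg N (fun n => ∫ x, G N n x * u x ∂μ)) U (𝓝 (∫ x, f x * u x ∂μ)))
    (hstar : ∀ (k : List ℤ) (χ : X → ℂ) (α : ℝ), k ≠ [] → IsEig A χ α → e α ≠ 1 →
      Tendsto (fun N => avg N (fun n => ∫ x, cub A k (G N n) x * χ x ∂μ)) U (𝓝 0))
    (s : ℕ) (hs : 1 ≤ s) (hnn : ¬ Null A (s + 1) f) : ¬ Null A s f :=
  DegLow.degree_lowering_aux A herg U G hG f hf hW hstar s hs
    (nonnull_split A f hf s hnn) (fun u hu a ha h => eig A herg u hu a ha h)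

end Pool.Agent.JE
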